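import Pool.Agent.Lib.MP_defcf3_al.BR.StageE
import Pool.Agent.Lib.MP_defcf3_al.BR.H32.RepZ

/-!
Project BR7, stage 4, module BASEL: base change of splitting data to an extension L of F contained in Ω.
-/

open scoped TensorProduct

namespace BR7.H38

universe u v

/-- Restriction of scalars of automorphisms from L to F. -/
def resL (F L Ω : Type u) [Field F] [Field L] [Field Ω] [Algebra F L] [Algebra L Ω] [Algebra F Ω]
    [IsScalarTower F L Ω] : (Ω ≃ₐ[L] Ω) →* (Ω ≃ₐ[F] Ω) where
  toFun g := g.restrictScalars F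
  map_one' := rfl
  map_mul' _ _ := rfl

theorem continuous_resL (F L Ω : Type u) [Field F] [Field L] [Field Ω] [Algebra F L] [Algebra L Ω]
    [Algebra F Ω] [IsScalarTower F L Ω] [IsGalois F Ω] : Continuous (resL F L Ω) := by
  have hint : Algebra.IsIntegral L Ω := Algebra.IsIntegral.tower_top (R := F)
  have hg : IsGalois L Ω := IsGalois.tower_top_of_isGalois F L Ω
  apply continuous_of_continuousAt_one
  intro U hU
  rw [map_one, krullTopology_mem_nhds_one_iff] at hU
  obtain ⟨E, hE, hEU⟩ := hU
  have hfin : FiniteDimensional F E := hE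
  let b := Module.finBasis F E
  have h1 : ∀ i, ∀ᶠ g : Ω ≃ₐ[L] Ω in nhds 1, g (b i : Ω) = (1 : Ω ≃ₐ[L] Ω) (b i : Ω) := fun i =>
    (H32.lc_apply (F := L) (b i : Ω)).eventually_eq 1
  have h2 : ∀ᶠ g : Ω ≃ₐ[L] Ω in nhds 1, ∀ i, g (b i : Ω) = (1 : Ω ≃ₐ[L] Ω) (b i : Ω) :=
    Filter.eventually_all.mpr h1
  rw [Filter.mem_map]
  filter_upwards [h2] with g hg
  rw [Set.mem_preimage]
  apply hEU
  rw [SetLike.mem_coe, IntermediateField.mem_fixingSubgroup_iff]
  intro x hx
  have h3 : x = ∑ i, b.repr ⟨x, hx⟩ i • (b i : Ω) := by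
    have := congrArg (fun y : E => (y : Ω)) (b.sum_repr ⟨x, hx⟩)
    simp only [AddSubmonoidClass.coe_finsetSum, IntermediateField.coe_smul] at this
    exact this.symm
  rw [h3, map_sum]
  refine Finset.sum_congr rfl fun i _ => ?_
  rw [map_smul]
  congr 1
  exact hg i

theorem basel : BaseLStatement.{u, v} := by
  intro F L Ω _ _ _ _ _ _ _ _ _ A _ _ n _ _ f R
  let ι' : L ⊗[F] A →ₐ[L] Matrix n n Ω := Algebra.TensorProduct.lift (Algebra.ofId L (Matrix n n Ω)) R.ι
    (fun x y => Algebra.commutes x (R.ι y))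
  have hι' : ∀ (c : L) (a : A), ι' (c ⊗ₜ[F] a) = (algebraMap L Ω c) • R.ι a := by
    intro c a
    have h1 : ι' (c ⊗ₜ[F] a) = (Algebra.ofId L (Matrix n n Ω)) c * R.ι a :=
      Algebra.TensorProduct.lift_tmul _ _ _ _ _
    rw [h1, Algebra.ofId_apply, ← Algebra.smul_def]
    ext i j
    simp [Algebra.smul_def]
  refine ⟨{ ι := ι'
            u := fun g => R.u (resL F L Ω g)
            ne := R.ne
            dim := ?_
            span := ?_
            lc := R.lc.comp_continuous (continuous_resL F L Ω)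
            tw := ?_
            fac := ?_ }⟩
  · rw [Module.finrank_baseChange, R.dim]
  · rw [eq_top_iff, ← R.span]
    apply Submodule.span_mono
    rintro _ ⟨a, rfl⟩
    refine ⟨(1 : L) ⊗ₜ[F] a, ?_⟩
    rw [hι']
    simp
  · intro g x
    induction x using TensorProduct.induction_on with
    | zero => simp
    | tmul c a =>
      rw [hι', mul_smul_comm, smul_mul_assoc]
      have h1 := R.tw (resL F L Ω g) a
      rw [← h1]
      ext i j
      simp only [Matrix.map_apply, Matrix.smul_apply, smul_eq_mul, map_mul]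
      congr 1
      exact g.commutes c
    | add x y hx hy =>
      rw [map_add, Matrix.map_add g (map_add g), hx, hy, mul_add, add_mul]
  · intro g h
    have := R.fac (resL F L Ω g) (resL F L Ω h)
    rw [map_mul]
    exact this

end BR7.H38
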