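import Pool.Agent.Lib.MP_defcf3_al.BR.BaseC

/-!
Modules NDIR, CONJC, CONJRES of project BR7.
-/

set_option autoImplicit false

namespace BR7.H38

open BR7

universe u

/-- Module NDIR. -/
theorem ndir (_h1 : GcupPushStatement.{u}) (h2 : GcupCobStatement.{u}) :
    NormDirStatement.{u} := by
  intro G A _ _ _ _ _ hA n _ χ _ _ Y _ _ hY v ψ hv hχ
  have h3 := h2 G A Y hA hY n v ψ hv
  convert h3 using 1
  funext g h
  simp only [cup, gcup]
  have e1 : ∏ y, v y = ∏ y, v ((g * h) • y) := by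
    rw [← Equiv.prod_comp (MulAction.toPerm (g * h))]
    rfl
  rw [e1, ← Finset.prod_pow]
  refine Finset.prod_congr rfl fun y _ => ?_
  rw [← hχ g (h • y), ← hχ h y]

section

variable {G A : Type u} [Group G] [TopologicalSpace G] [IsTopologicalGroup G] [CommGroup A]
  [MulDistribMulAction G A]

/-- Conjugation as a map of the subgroup. -/
def cj (H : Subgroup G) (γ : G) (hH : ∀ h ∈ H, γ⁻¹ * h * γ ∈ H) (g : H) : H :=
  ⟨γ⁻¹ * g * γ, hH g g.2⟩

omit [TopologicalSpace G] [IsTopologicalGroup G] in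
theorem cj_mul (H : Subgroup G) (γ : G) (hH : ∀ h ∈ H, γ⁻¹ * h * γ ∈ H) (g h : H) :
    cj H γ hH (g * h) = cj H γ hH g * cj H γ hH h := by
  apply Subtype.ext
  change γ⁻¹ * ((g : G) * h) * γ = (γ⁻¹ * g * γ) * (γ⁻¹ * h * γ)
  group

theorem continuous_cj (H : Subgroup G) (γ : G) (hH : ∀ h ∈ H, γ⁻¹ * h * γ ∈ H) :
    Continuous (cj H γ hH) := by
  apply Continuous.subtype_mk
  exact (continuous_const.mul continuous_subtype_val).mul continuous_const

omit [TopologicalSpace G] [IsTopologicalGroup G] in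
theorem smul_cj (H : Subgroup G) (γ : G) (hH : ∀ h ∈ H, γ⁻¹ * h * γ ∈ H) (g : H) (a : A) :
    γ • (cj H γ hH g • a) = g • (γ • a) := by
  change γ • ((γ⁻¹ * (g : G) * γ) • a) = (g : G) • (γ • a)
  rw [← mul_smul, ← mul_smul]
  congr 1
  group

end

/-- Module CONJC. -/
theorem conjc : ConjCStatement.{u} := by
  intro G A _ _ _ _ _ hA H γ hH
  constructor
  · intro f hf
    obtain ⟨h1, h2⟩ := hf
    refine ⟨?_, fun g h k => ?_⟩
    · have h3 : Continuous (fun p : H × H => (cj H γ hH p.1, cj H γ hH p.2)) :=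
        ((continuous_cj H γ hH).comp continuous_fst).prodMk
          ((continuous_cj H γ hH).comp continuous_snd)
      exact (h1.comp_continuous h3).comp (fun a : A => γ • a)
    · change (γ • f (cj H γ hH g) (cj H γ hH h)) * (γ • f (cj H γ hH (g * h)) (cj H γ hH k)) =
        (g • (γ • f (cj H γ hH h) (cj H γ hH k))) * (γ • f (cj H γ hH g) (cj H γ hH (h * k)))
      rw [← smul_cj, ← smul_mul', ← smul_mul', cj_mul, cj_mul, h2]
  · intro f hf
    obtain ⟨b, hb, e⟩ := hf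
    refine ⟨fun g => γ • b (cj H γ hH g), ?_, fun g h => ?_⟩
    · exact (hb.comp_continuous (continuous_cj H γ hH)).comp (fun a : A => γ • a)
    · change γ • f (cj H γ hH g) (cj H γ hH h) = (γ • b (cj H γ hH g)) *
        (g • (γ • b (cj H γ hH h))) * (γ • b (cj H γ hH (g * h)))⁻¹
      rw [← smul_cj, ← smul_inv', ← smul_mul', ← smul_mul', cj_mul, e]

theorem aux_conj {A : Type u} [CommGroup A] (a1 a2 a3 a4 a5 a6 a7 a8 a9 a10 : A)
    (e1 : a1 * a2 = a3 * a4) (e2 : a5 * a2 = a6 * a7) (e3 : a8 * a9 = a10 * a7) :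
    a3 * a8⁻¹ = a1 * a5⁻¹ * (a6 * a10⁻¹) * (a4 * a9⁻¹)⁻¹ := by
  have h3 : a3 = a1 * a2 * a4⁻¹ := by rw [e1, mul_inv_cancel_right]
  have h2 : a2 = a5⁻¹ * (a6 * a7) := by rw [← e2, inv_mul_cancel_left]
  have h8 : a8 = a10 * a7 * a9⁻¹ := by rw [← e3, mul_inv_cancel_right]
  rw [h3, h2, h8]
  apply Additive.ofMul.injective
  simp only [ofMul_mul, ofMul_inv]
  abel

/-- Module CONJRES. -/
theorem conjres (_h : BZStatement.{u}) : ConjResStatement.{u} := by
  intro G A _ _ _ _ _ hA H γ hH f hf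
  obtain ⟨h1, h2⟩ := hf
  refine ⟨fun g => f γ (γ⁻¹ * g * γ) * (f g γ)⁻¹, ?_, fun g h => ?_⟩
  · have c1 : Continuous (fun g : H => ((γ, γ⁻¹ * (g : G) * γ) : G × G)) :=
      continuous_const.prodMk
        ((continuous_const.mul continuous_subtype_val).mul continuous_const)
    have c2 : Continuous (fun g : H => (((g : G), γ) : G × G)) :=
      continuous_subtype_val.prodMk continuous_const
    exact (h1.comp_continuous c1).mul (h1.comp_continuous c2).inv
  · have e1 := h2 γ (γ⁻¹ * g * γ) (γ⁻¹ * h * γ)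
    have e2 := h2 g γ (γ⁻¹ * h * γ)
    have e3 := h2 g h γ
    have r1 : γ * (γ⁻¹ * (g : G) * γ) = g * γ := by group
    have r2 : γ * (γ⁻¹ * (h : G) * γ) = h * γ := by group
    have r3 : γ⁻¹ * (g : G) * γ * (γ⁻¹ * h * γ) = γ⁻¹ * ((g : G) * h) * γ := by group
    rw [r1, r3] at e1
    rw [r2] at e2
    have e4 := aux_conj _ _ _ _ _ _ _ _ _ _ e1 e2 e3
    beta_reduce
    rw [e4]
    have r4 : (g • (f γ (γ⁻¹ * (h : G) * γ) * (f (h : G) γ)⁻¹) : A) =
        ((g : G) • f γ (γ⁻¹ * (h : G) * γ)) * ((g : G) • f (h : G) γ)⁻¹ := by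
      change (g : G) • (f γ (γ⁻¹ * (h : G) * γ) * (f (h : G) γ)⁻¹) = _
      rw [smul_mul', smul_inv']
    rw [r4]
    rfl

end BR7.H38
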