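import Pool.Agent.Lib.MP_defcf3_al.BR.StageE
import Pool.Agent.Lib.MP_defcf3_al.BR.H32.RepZ

/-!
Project BR7, stage 4, module DET: the degree kills the class (determinants of the twist).
-/

namespace BR7.H38

universe u v

theorem det : DetStatement.{u} := by
  intro F Ω _ _ _ _ A _ _ n f R
  have hdet : ∀ g h : Ω ≃ₐ[F] Ω, ((Matrix.GeneralLinearGroup.det (R.u g) : Ωˣ) : Ω) *
      g ((Matrix.GeneralLinearGroup.det (R.u h) : Ωˣ) : Ω) =
      ((f g h : Ωˣ) : Ω) ^ n * ((Matrix.GeneralLinearGroup.det (R.u (g * h)) : Ωˣ) : Ω) := by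
    intro g h
    have h1 := congrArg Matrix.det (R.fac g h)
    rw [Matrix.det_mul, Matrix.det_smul, Fintype.card_fin] at h1
    have h2 : ((R.u h : Matrix (Fin n) (Fin n) Ω).map g).det = g (R.u h : Matrix (Fin n) (Fin n) Ω).det := by
      have := (g : Ω →+* Ω).map_det (R.u h : Matrix (Fin n) (Fin n) Ω)
      exact this.symm
    rw [h2] at h1
    exact h1
  refine ⟨fun g => Matrix.GeneralLinearGroup.det (R.u g), R.lc.comp _, fun g h => ?_⟩
  rw [eq_mul_inv_iff_mul_eq]
  apply Units.ext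
  simp only [Pi.pow_apply, Units.val_mul, Units.val_pow_eq_pow_val]
  exact (hdet g h).symm

end BR7.H38
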