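import Pool.Agent.Lib.MP_defcf3_al.BR.StageI
import Pool.Agent.Lib.MP_defcf3_al.BR.H38.Sadd

/-!
Module FINBR of project BR7, stage 2.
-/

set_option autoImplicit false

namespace BR7.H38

open BR7

universe u

/-- Module FINBR. -/
theorem finbr (hF : FactorStatement.{u}) (hD : DescStatement.{u}) (hR : RepCSAStatement.{u, 0})
    (hU : UniqStatement.{u}) : FinBrStatement.{u} := by
  intro F _ hfin
  -- choose an algebra for every class
  have h1 : ∀ c : H2 (SeparableClosure F ≃ₐ[F] SeparableClosure F) (SeparableClosure F)ˣ,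
      ∃ (f : _) (_ : f ∈ Z2 (SeparableClosure F ≃ₐ[F] SeparableClosure F) (SeparableClosure F)ˣ)
        (_ : cls _ _ f = c) (A : CSA.{u, u} F) (n : ℕ),
        Nonempty (RepData F (SeparableClosure F) A (Fin n) f) := by
    intro c
    obtain ⟨⟨f, hf⟩, rfl⟩ := QuotientGroup.mk_surjective c
    obtain ⟨N, hN, hNo, hNf⟩ := hF F (SeparableClosure F) f hf
    obtain ⟨A, _, _, ⟨hA⟩, -⟩ := hD F (SeparableClosure F) f hf N hN hNo hNf
    obtain ⟨r1, r2, r3⟩ := hR F (SeparableClosure F) A (Fin N.index) f hA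
    exact ⟨f, hf, cls_of_mem hf, @CSA.mk F _ (AlgCat.of F A) r1 r2 r3, N.index, ⟨hA⟩⟩
  choose f hf hfc A n hA using h1
  have hinj : Function.Injective
      (fun c => (Quotient.mk (Brauer.CSA_Setoid F) (A c) : BrauerGroup.{u, u} F)) := by
    intro c c' hcc
    obtain ⟨p, q, hp, hq, ⟨e⟩⟩ := Quotient.exact hcc
    obtain ⟨ha⟩ := hA c
    obtain ⟨ha'⟩ := hA c'
    have h2 := hU F (SeparableClosure F) (A c) (A c') (n c) (n c') (f c) (f c') ha ha' p q hp hq e
    have h3 := cls_eq (hf c) (hf c') h2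
    rw [hfc, hfc] at h3
    exact h3
  exact Finite.of_injective _ hinj

end BR7.H38
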