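import Pool.Agent.Lib.MP_defcf3_al.BR.BaseC

/-!
Modules BZ, GZ, EXPO, GADD, GTORS, GCOB, GMOD, PUSH, GTRANS, GCHAR of project BR7.
-/

set_option autoImplicit false

namespace BR7.H38

open BR7

universe u

/-! ### Local constancy -/

section LC

variable {G A X : Type u} [Group G] [TopologicalSpace G] [IsTopologicalGroup G] [CommGroup A]
  [MulDistribMulAction G A] [MulAction G X]

theorem lc_smulA (hA : Disc G A) (a : A) : IsLocallyConstant (fun g : G => g • a) := by
  rw [IsLocallyConstant.iff_exists_open]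
  intro g0
  refine ⟨(fun g => g0⁻¹ * g) ⁻¹' {g : G | g • a = a}, ?_, ?_, ?_⟩
  · exact (hA a).preimage (continuous_const.mul continuous_id)
  · simp
  · intro g hg
    have h1 : (g0⁻¹ * g) • a = a := hg
    rw [mul_smul, inv_smul_eq_iff] at h1
    exact h1

theorem lc_smulX (hX : OpenStab G X) (x : X) : IsLocallyConstant (fun g : G => g • x) := by
  rw [IsLocallyConstant.iff_exists_open]
  intro g0
  refine ⟨(fun g => g0⁻¹ * g) ⁻¹' {g : G | g • x = x}, ?_, ?_, ?_⟩
  · exact (hX x).preimage (continuous_const.mul continuous_id)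
  · simp
  · intro g hg
    have h1 : (g0⁻¹ * g) • x = x := hg
    rw [mul_smul, inv_smul_eq_iff] at h1
    exact h1

theorem lc_smul_fun (hA : Disc G A) {b : G → A} (hb : IsLocallyConstant b) :
    IsLocallyConstant (fun p : G × G => p.1 • b p.2) := by
  rw [IsLocallyConstant.iff_eventually_eq]
  intro p0
  have h1 := ((hb.comp_continuous (continuous_snd (X := G) (Y := G))).eventually_eq p0)
  have h2 := (((lc_smulA hA (b p0.2)).comp_continuous
    (continuous_fst (X := G) (Y := G))).eventually_eq p0)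
  filter_upwards [h1, h2] with p e1 e2
  simp only [Function.comp_apply] at e1 e2
  rw [e1, e2]

theorem lc_prod {Y : Type*} [TopologicalSpace Y] {ι : Type*} [Fintype ι] (f : ι → Y → A)
    (hf : ∀ i, IsLocallyConstant (f i)) : IsLocallyConstant (fun y => ∏ i, f i y) := by
  rw [IsLocallyConstant.iff_eventually_eq]
  intro y0
  have h1 : ∀ᶠ y in nhds y0, ∀ i, f i y = f i y0 :=
    Filter.eventually_all.2 fun i => (hf i).eventually_eq y0
  filter_upwards [h1] with y hy
  exact Finset.prod_congr rfl fun i _ => hy i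

theorem aux6 (a1 a2 a3 a4 a5 a6 : A) :
    a1 * a2 * a3⁻¹ * (a3 * a4 * a5⁻¹) = (a2 * a4 * a6⁻¹) * (a1 * a6 * a5⁻¹) := by
  apply Additive.ofMul.injective
  simp only [ofMul_mul, ofMul_inv]
  abel

end LC

/-- Module BZ. -/
theorem bz : BZStatement.{u} := by
  intro G A _ _ _ _ _ hA f hf
  obtain ⟨b, hb, e⟩ := hf
  refine ⟨?_, fun g h k => ?_⟩
  · have h1 : (fun p : G × G => f p.1 p.2) =
        (fun p : G × G => b p.1) * (fun p : G × G => p.1 • b p.2) *
          (fun p : G × G => b (p.1 * p.2))⁻¹ := by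
      funext p
      exact e p.1 p.2
    rw [h1]
    exact ((hb.comp_continuous continuous_fst).mul (lc_smul_fun hA hb)).mul
      (hb.comp_continuous (continuous_fst.mul continuous_snd)).inv
  · rw [e g h, e (g * h) k, e h k, e g (h * k)]
    simp only [smul_mul', smul_inv', ← mul_smul, mul_assoc g h k]
    exact aux6 _ _ _ _ _ _

/-- Module EXPO. -/
theorem expo : ExpoStatement.{u} := by
  intro G A X _ _ _ _ _ _ _ hA hX v hv q hq
  refine ⟨fun g => ∏ x, v (g • x) ^ q g x, ?_, fun g h => ?_⟩
  · apply lc_prod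
    intro x
    rw [IsLocallyConstant.iff_eventually_eq]
    intro g0
    filter_upwards [(lc_smulX hX x).eventually_eq g0, (hq x).eventually_eq g0] with g e1 e2
    rw [e1, e2]
  · have e1 : ∏ x, v (g • x) ^ q g x = ∏ x, v ((g * h) • x) ^ q g (h • x) := by
      rw [← Equiv.prod_comp (MulAction.toPerm h)]
      refine Finset.prod_congr rfl fun x _ => ?_
      simp only [MulAction.toPerm_apply, mul_smul]
    have e2 : g • ∏ x, v (h • x) ^ q h x = ∏ x, v ((g * h) • x) ^ q h x := by
      rw [Finset.smul_prod']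
      refine Finset.prod_congr rfl fun x _ => ?_
      rw [smul_zpow', ← hv, mul_smul]
    beta_reduce
    rw [e1, e2, ← Finset.prod_mul_distrib, ← Finset.prod_inv_distrib, ← Finset.prod_mul_distrib]
    refine Finset.prod_congr rfl fun x _ => ?_
    rw [zpow_sub, zpow_add]

/-! ### Carries -/

theorem carry_spec (n : ℕ) [NeZero n] (a b : ZMod n) :
    (n : ℤ) * (carry n a b : ℤ) = (a.val : ℤ) + b.val - (a + b).val := by
  have h1 := Nat.div_add_mod (a.val + b.val) n
  rw [← ZMod.val_add] at h1
  unfold carry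
  have h2 : ((n * ((a.val + b.val) / n) + (a + b).val : ℕ) : ℤ) = ((a.val + b.val : ℕ) : ℤ) := by
    rw [h1]
  push_cast at h2
  push_cast
  linarith

theorem cancel_n {n : ℕ} [NeZero n] {x y : ℤ} (h : (n : ℤ) * x = n * y) : x = y :=
  mul_left_cancel₀ (by exact_mod_cast (NeZero.ne n)) h

theorem carry_cocycle (n : ℕ) [NeZero n] (a b c : ZMod n) :
    carry n a b + carry n (a + b) c = carry n b c + carry n a (b + c) := by
  have h : (n : ℤ) * ((carry n a b + carry n (a + b) c : ℕ) : ℤ) =
      n * ((carry n b c + carry n a (b + c) : ℕ) : ℤ) := by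
    push_cast
    rw [mul_add, mul_add, carry_spec, carry_spec, carry_spec, carry_spec, add_assoc a b c]
    ring
  exact_mod_cast cancel_n h

section Gcup

variable {G A X : Type u} [Group G] [TopologicalSpace G] [IsTopologicalGroup G] [CommGroup A]
  [MulDistribMulAction G A] [MulAction G X] [Fintype X]

omit [CommGroup A] [MulDistribMulAction G A] [Fintype X] in
theorem lc_two (hX : OpenStab G X) {B : Type*} (χ : G → X → B)
    (hχ : ∀ x, IsLocallyConstant (fun g => χ g x)) (x : X) :
    IsLocallyConstant (fun p : G × G => χ p.1 (p.2 • x)) := by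
  rw [IsLocallyConstant.iff_eventually_eq]
  intro p0
  have h1 := (((lc_smulX hX x).comp_continuous (continuous_snd (X := G) (Y := G))).eventually_eq p0)
  have h2 := (((hχ (p0.2 • x)).comp_continuous
    (continuous_fst (X := G) (Y := G))).eventually_eq p0)
  filter_upwards [h1, h2] with p e1 e2
  simp only [Function.comp_apply] at e1 e2
  rw [e1, e2]

/-- A cochain given by integral exponents. -/
theorem mem_B2_of_expo (hA : Disc G A) (hX : OpenStab G X) (v : X → A)
    (hv : EqvF (G := G) v) (q : G → X → ℤ) (hq : ∀ x, IsLocallyConstant (fun g => q g x))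
    (E : G → G → X → ℤ) (f : G → G → A)
    (hf : ∀ g h, f g h = ∏ x, v ((g * h) • x) ^ E g h x)
    (hE : ∀ g h x, E g h x = q g (h • x) + q h x - q (g * h) x) : f ∈ B2 G A := by
  have h1 := expo G A X hA hX v hv q hq
  convert h1 using 1
  funext g h
  rw [hf]
  exact Finset.prod_congr rfl fun x _ => by rw [hE]

end Gcup

/-- Module GZ. -/
theorem gz : GcupZStatement.{u} := by
  intro G A X _ _ _ _ _ _ _ hA hX n _ v χ hv hχ hc
  refine ⟨?_, fun g h k => ?_⟩
  · apply lc_prod
    intro x
    rw [IsLocallyConstant.iff_eventually_eq]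
    intro p0
    have h0 := (((lc_smulX hX x).comp_continuous
      (f := fun p : G × G => p.1 * p.2) (continuous_fst.mul continuous_snd)).eventually_eq p0)
    have h1 := (lc_two hX χ hc x).eventually_eq p0
    have h2 := ((hc x).comp_continuous (continuous_snd (X := G) (Y := G))).eventually_eq p0
    filter_upwards [h0, h1, h2] with p e0 e1 e2
    simp only [Function.comp_apply] at e0 e1 e2
    rw [e0, e1, e2]
  · have e1 : gcup n v χ g h = ∏ x, v ((g * h * k) • x) ^
        carry n (χ g ((h * k) • x)) (χ h (k • x)) := by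
      unfold gcup
      rw [← Equiv.prod_comp (MulAction.toPerm k)]
      refine Finset.prod_congr rfl fun x _ => ?_
      simp only [MulAction.toPerm_apply, mul_smul]
    have e2 : g • gcup n v χ h k = ∏ x, v ((g * h * k) • x) ^
        carry n (χ h (k • x)) (χ k x) := by
      unfold gcup
      rw [Finset.smul_prod']
      refine Finset.prod_congr rfl fun x _ => ?_
      rw [smul_pow', ← hv, mul_assoc, mul_smul g]
    rw [e1, e2]
    unfold gcup
    rw [← Finset.prod_mul_distrib, ← Finset.prod_mul_distrib]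
    refine Finset.prod_congr rfl fun x _ => ?_
    rw [mul_assoc g h k, ← pow_add, ← pow_add, hχ g h (k • x), hχ h k x, ← mul_smul,
      carry_cocycle]

/-- Module GADD. -/
theorem gadd : GcupAddStatement.{u} := by
  intro G A X _ _ _ _ _ _ _ hA hX n _ v χ ψ hv hχ hψ hc hc'
  refine mem_B2_of_expo hA hX v hv (fun g x => -(carry n (χ g x) (ψ g x) : ℤ)) ?_
    (fun g h x => (carry n (χ g (h • x) + ψ g (h • x)) (χ h x + ψ h x) : ℤ) -
      ((carry n (χ g (h • x)) (χ h x) : ℤ) + (carry n (ψ g (h • x)) (ψ h x) : ℤ))) _ ?_ ?_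
  · intro x
    rw [IsLocallyConstant.iff_eventually_eq]
    intro g0
    filter_upwards [(hc x).eventually_eq g0, (hc' x).eventually_eq g0] with g e1 e2
    rw [e1, e2]
  · intro g h
    simp only [Pi.mul_apply, Pi.inv_apply, gcup]
    rw [← Finset.prod_mul_distrib, ← Finset.prod_inv_distrib, ← Finset.prod_mul_distrib]
    refine Finset.prod_congr rfl fun x _ => ?_
    rw [zpow_sub, zpow_add, zpow_natCast, zpow_natCast, zpow_natCast]
  · intro g h x
    apply cancel_n (n := n)
    rw [mul_sub, mul_add, mul_sub, mul_add, mul_neg, mul_neg, mul_neg]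
    simp only [carry_spec]
    rw [hχ g h x, hψ g h x]
    have e1 : χ g (h • x) + ψ g (h • x) + (χ h x + ψ h x) =
        χ g (h • x) + χ h x + (ψ g (h • x) + ψ h x) := by abel
    rw [e1]
    ring

/-- Module GTORS. -/
theorem gtors : GcupTorsStatement.{u} := by
  intro G A X _ _ _ _ _ _ _ hA hX n _ v χ hv hχ hc
  refine mem_B2_of_expo hA hX v hv (fun g x => ((χ g x).val : ℤ)) ?_
    (fun g h x => n * (carry n (χ g (h • x)) (χ h x) : ℤ)) _ ?_ ?_
  · intro x
    exact (hc x).comp fun a => ((a.val : ℕ) : ℤ)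
  · intro g h
    simp only [Pi.pow_apply, gcup]
    rw [← Finset.prod_pow]
    refine Finset.prod_congr rfl fun x _ => ?_
    rw [← pow_mul, ← zpow_natCast]
    congr 1
    push_cast
    ring
  · intro g h x
    rw [carry_spec, hχ g h x]

/-- Module GCOB. -/
theorem gcob : GcupCobStatement.{u} := by
  intro G A X _ _ _ _ _ _ _ hA hX n _ v ψ hv
  refine mem_B2_of_expo hA hX v hv (fun g x => (carry n (ψ (g • x) - ψ x) (ψ x) : ℤ)) ?_
    (fun g h x => (carry n (ψ (g • h • x) - ψ (h • x)) (ψ (h • x) - ψ x) : ℤ)) _ ?_ ?_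
  · intro x
    exact (lc_smulX hX x).comp fun y => ((carry n (ψ y - ψ x) (ψ x) : ℕ) : ℤ)
  · intro g h
    simp only [gcup]
    refine Finset.prod_congr rfl fun x _ => ?_
    rw [zpow_natCast]
  · intro g h x
    apply cancel_n (n := n)
    rw [mul_sub, mul_add]
    simp only [carry_spec, mul_smul]
    have e1 : ψ (g • h • x) - ψ (h • x) + (ψ (h • x) - ψ x) = ψ (g • h • x) - ψ x := by abel
    rw [e1]
    simp only [sub_add_cancel]
    ring

/-- Module GMOD. -/
theorem gmod : GcupModStatement.{u} := by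
  intro G A X _ _ _ _ _ _ _ hA hX n k m _ _ _ hd hm v χ hv hχ hc
  have hval : ∀ a : ZMod m, ((ZMod.castHom hd (ZMod n) a).val : ℤ) =
      (a.val : ℤ) - n * ((a.val / n : ℕ) : ℤ) := by
    intro a
    have h1 : (ZMod.castHom hd (ZMod n) a).val = a.val % n := by
      rw [ZMod.castHom_apply, ← ZMod.natCast_val, ZMod.val_natCast]
    have h2 := Nat.div_add_mod a.val n
    rw [h1]
    have h3 : ((n * (a.val / n) + a.val % n : ℕ) : ℤ) = (a.val : ℤ) := by rw [h2]
    push_cast at h3
    push_cast
    linarith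
  refine mem_B2_of_expo hA hX v hv (fun g x => (((χ g x).val / n : ℕ) : ℤ)) ?_
    (fun g h x => k * (carry m (χ g (h • x)) (χ h x) : ℤ) -
      (carry n (ZMod.castHom hd (ZMod n) (χ g (h • x))) (ZMod.castHom hd (ZMod n) (χ h x)) : ℤ))
    _ ?_ ?_
  · intro x
    exact (hc x).comp fun a => ((a.val / n : ℕ) : ℤ)
  · intro g h
    simp only [Pi.mul_apply, Pi.inv_apply, Pi.pow_apply, gcup]
    rw [← Finset.prod_pow, ← Finset.prod_inv_distrib, ← Finset.prod_mul_distrib]
    refine Finset.prod_congr rfl fun x _ => ?_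
    rw [zpow_sub, zpow_natCast, ← pow_mul]
    congr 1
    rw [← zpow_natCast]
    congr 1
    push_cast
    ring
  · intro g h x
    apply cancel_n (n := n)
    have h1 := carry_spec m (χ g (h • x)) (χ h x)
    have hmz : (m : ℤ) = n * k := by rw [hm]; push_cast; ring
    rw [hmz] at h1
    rw [mul_sub, carry_spec, ← map_add, hval, hval, hval, hχ g h x]
    linear_combination h1

/-- Module PUSH. -/
theorem push : GcupPushStatement.{u} := by
  intro G A X Y _ _ _ _ _ _ _ _ n π hπ v χ
  funext g h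
  simp only [gcup]
  have h1 : ∀ y : Y, (∏ x ∈ Finset.univ.filter (fun x => π x = (g * h) • y), v x) =
      ∏ x ∈ Finset.univ.filter (fun x => π x = y), v ((g * h) • x) := by
    intro y
    refine Finset.prod_nbij' (fun x => (g * h)⁻¹ • x) (fun x => (g * h) • x) ?_ ?_ ?_ ?_ ?_
    · intro x hx
      simp only [Finset.mem_filter, Finset.mem_univ, true_and] at hx ⊢
      rw [hπ, hx, inv_smul_smul]
    · intro x hx
      simp only [Finset.mem_filter, Finset.mem_univ, true_and] at hx ⊢
      rw [hπ, hx]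
    · intro x _
      rw [smul_inv_smul]
    · intro x _
      rw [inv_smul_smul]
    · intro x _
      rw [smul_inv_smul]
  simp only [h1]
  have h2 : ∀ y : Y, (∏ x ∈ Finset.univ.filter (fun x => π x = y), v ((g * h) • x)) ^
      carry n (χ g (h • y)) (χ h y) = ∏ x ∈ Finset.univ.filter (fun x => π x = y),
        v ((g * h) • x) ^ carry n (χ g (π (h • x))) (χ h (π x)) := by
    intro y
    rw [← Finset.prod_pow]
    refine Finset.prod_congr rfl fun x hx => ?_
    simp only [Finset.mem_filter, Finset.mem_univ, true_and] at hx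
    rw [hπ, hx]
  simp only [h2]
  rw [Finset.prod_fiberwise]

/-- Module GTRANS. -/
theorem gtrans : GcupTransStatement.{u} := by
  intro G A X _ _ _ _ _ _ _ hA hX n _ a χ ha hχ hc
  -- the sum of the values
  have hS : ∀ g h, ∑ x, χ (g * h) x = ∑ x, χ g x + ∑ x, χ h x := by
    intro g h
    have e1 : ∑ x, χ g x = ∑ x, χ g (h • x) := by
      rw [← Equiv.sum_comp (MulAction.toPerm h)]
      rfl
    rw [e1, ← Finset.sum_add_distrib]
    exact Finset.sum_congr rfl fun x _ => hχ g h x
  have hdvd : ∀ g, (n : ℤ) ∣ (∑ x, ((χ g x).val : ℤ)) - ((∑ x, χ g x).val : ℤ) := by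
    intro g
    rw [← ZMod.intCast_zmod_eq_zero_iff_dvd]
    push_cast
    simp
  choose q hq using hdvd
  have hqc : IsLocallyConstant q := by
    rw [IsLocallyConstant.iff_eventually_eq]
    intro g0
    have h1 : ∀ᶠ g in nhds g0, ∀ x, χ g x = χ g0 x :=
      Filter.eventually_all.2 fun x => (hc x).eventually_eq g0
    filter_upwards [h1] with g hg
    apply cancel_n (n := n)
    rw [← hq, ← hq]
    simp only [hg]
  have hexp : ∀ g h, (∑ x, (carry n (χ g (h • x)) (χ h x) : ℤ)) -
      (carry n (∑ x, χ g x) (∑ x, χ h x) : ℤ) = q g + q h - q (g * h) := by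
    intro g h
    apply cancel_n (n := n)
    rw [mul_sub, mul_sub, mul_add, ← hq, ← hq, ← hq, Finset.mul_sum, carry_spec, ← hS]
    simp only [carry_spec, ← hχ g h]
    rw [Finset.sum_sub_distrib, Finset.sum_add_distrib]
    have e1 : ∑ x, ((χ g x).val : ℤ) = ∑ x, ((χ g (h • x)).val : ℤ) := by
      rw [← Equiv.sum_comp (MulAction.toPerm h)]
      rfl
    rw [e1]
    ring
  refine ⟨fun g => a ^ q g, hqc.comp fun z => a ^ z, fun g h => ?_⟩
  simp only [Pi.mul_apply, Pi.inv_apply, gcup, cup]
  rw [smul_zpow', ha, ← zpow_add, ← zpow_sub, ← hexp, zpow_sub, zpow_natCast,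
    Finset.prod_pow_eq_pow_sum, ← zpow_natCast]
  push_cast
  rfl

/-- Module GCHAR. -/
theorem gchar : GCharStatement.{u} := by
  intro G X _ _ n χ ψ x0 hχ hψ htr hst
  choose t ht using htr
  refine ⟨fun x => χ (t x) x0 - ψ (t x) x0, fun g x => ?_⟩
  have h1 := hχ g (t x) x0
  have h2 := hψ g (t x) x0
  rw [ht] at h1 h2
  have h3 : g * t x = t (g • x) * ((t (g • x))⁻¹ * (g * t x)) := by
    rw [mul_inv_cancel_left]
  have h4 : ((t (g • x))⁻¹ * (g * t x)) • x0 = x0 := by
    rw [mul_smul, mul_smul, ht, inv_smul_eq_iff, ht]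
  have h5 := hχ (t (g • x)) ((t (g • x))⁻¹ * (g * t x)) x0
  have h6 := hψ (t (g • x)) ((t (g • x))⁻¹ * (g * t x)) x0
  rw [← h3, h4] at h5 h6
  have h7 := hst _ h4
  simp only
  linear_combination h5 - h6 - h1 + h2 + h7

end BR7.H38
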