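import Pool.Agent.Lib.MP_defcf3_al.BR.H38.Sadd
import Pool.Agent.Lib.MP_defcf3_al.BR.H38.Index

/-!
Modules SNORM and SSTEIN of project BR7.
-/

set_option autoImplicit false

namespace BR7.H38

open BR7

universe u

/-- Norm criterion with the cyclic set. -/
theorem cup_norm (hN : NormDirStatement.{u}) {G A : Type u} [Group G] [TopologicalSpace G]
    [IsTopologicalGroup G] [CommGroup A] [MulDistribMulAction G A] (hA : Disc G A) (n : ℕ)
    [NeZero n] (χ : G → ZMod n) (hχ : ∀ g h, χ (g * h) = χ g + χ h) (hc : IsLocallyConstant χ)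
    (v : ZMod n → A) (hv : ∀ g i, v (i + χ g) = g • v i) : cup n (∏ i, v i) χ ∈ B2 G A := by
  have h1 : χ 1 = 0 := by
    have := hχ 1 1
    rw [mul_one] at this
    simpa using this
  let act : MulAction G (ULift.{u} (ZMod n)) :=
    { smul := fun g i => ⟨i.down + χ g⟩
      one_smul := fun i => by
        change (⟨i.down + χ 1⟩ : ULift.{u} (ZMod n)) = i
        rw [h1, add_zero]
      mul_smul := fun g h i => by
        change (⟨i.down + χ (g * h)⟩ : ULift.{u} (ZMod n)) = ⟨i.down + χ h + χ g⟩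
        rw [hχ, add_assoc, add_comm (χ g)] }
  have hsm : ∀ (g : G) (i : ULift.{u} (ZMod n)), (g • i).down = i.down + χ g := fun g i => rfl
  have hO : OpenStab G (ULift.{u} (ZMod n)) := by
    intro i
    have e : {g : G | g • i = i} = χ ⁻¹' {0} := by
      ext g
      simp only [Set.mem_ofPred_eq, Set.mem_preimage, Set.mem_singleton_iff]
      constructor
      · intro h
        have h2 := congrArg ULift.down h
        rw [hsm] at h2
        simpa using h2
      · intro h
        apply ULift.down_injective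
        rw [hsm, h, add_zero]
    rw [e]
    exact hc.isOpen_fiber 0
  have h2 := hN G A hA n χ hχ hc (ULift.{u} (ZMod n)) hO (fun i => v i.down) (fun i => i.down)
    (fun g i => hv g i.down) (fun g i => by rw [hsm]; simp)
  have h3 : ∏ i : ULift.{u} (ZMod n), v i.down = ∏ i : ZMod n, v i :=
    Equiv.prod_comp Equiv.ulift v
  rw [h3] at h2
  exact h2

section

variable {F : Type u} {Ω : Type u} [Field F] [Field Ω] [Algebra F Ω]

theorem zpow_val_add {ζ : Ωˣ} (hζ : ζ ^ 7 = 1) (i j : ZMod 7) :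
    ζ ^ (i + j).val = ζ ^ i.val * ζ ^ j.val := by
  rw [← pow_add, ZMod.val_add]
  conv_rhs => rw [← Nat.div_add_mod (i.val + j.val) 7, pow_add, pow_mul, hζ, one_pow, one_mul]

theorem prod_zmod {M : Type*} [CommMonoid M] (f : ℕ → M) :
    ∏ i : ZMod 7, f i.val = ∏ i ∈ Finset.range 7, f i := by
  rw [← Fin.prod_univ_eq_prod_range]
  rfl

theorem cup_zero_B2 {G A : Type u} [Group G] [TopologicalSpace G] [CommGroup A]
    [MulDistribMulAction G A] (n : ℕ) (a : A) (χ : G → ZMod n) (h : ∀ g, χ g = 0) :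
    cup n a χ ∈ B2 G A := by
  have h1 : cup n a χ = 1 := by
    funext g k
    simp [cup, h, carry]
  rw [h1]
  exact one_mem _

end

/-- Module SNORM. -/
theorem snorm (hN : NormDirStatement.{u}) (hDisc : DiscStatement.{u}) (hK : KumStatement.{u})
    (hZ : GcupZStatement.{u}) : SymNormStatement.{u} := by
  intro F Ω _ _ _ _ _ ζ hζ n b hn hb hnd
  obtain ⟨k1, k2, k3, k4, k5, k6⟩ := hK F Ω ζ hζ
  have hA := disc_HZ F (hDisc F Ω) ζ
  have z := cup_mem_Z2 hZ hA 7 n (inL_smul F hn) _ (k3 b hb) (k4 b hb)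
  refine cls_eq_one z ?_
  by_cases hall : ∀ g, kum F ζ b g = 0
  · exact cup_zero_B2 7 n _ hall
  · push Not at hall
    obtain ⟨h0, hh0⟩ := hall
    have : Fact (Nat.Prime 7) := ⟨by norm_num⟩
    -- a power with value one
    have hpow : ∀ j : ℕ, kum F ζ b (h0 ^ j) = (j : ZMod 7) * kum F ζ b h0 := by
      intro j
      induction j with
      | zero =>
        have := k3 b hb 1 1
        rw [mul_one] at this
        simpa using this
      | succ j ih =>
        rw [pow_succ, k3 b hb, ih]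
        push_cast
        ring
    set j : ℕ := ((kum F ζ b h0)⁻¹ : ZMod 7).val with hj
    have hone : kum F ζ b (h0 ^ j) = 1 := by
      rw [hpow, hj, ZMod.natCast_zmod_val, inv_mul_cancel₀ hh0]
    set s : HZ F ζ := h0 ^ j with hs
    have hθ := k1 b
    set θ := root7 b with hθdef
    have hact := k2 b θ hb hθ
    have hsθ : (s : Ω ≃ₐ[F] Ω) • θ = ζ * θ := by
      have := hact s
      rw [hone] at this
      have h1 : (1 : ZMod 7).val = 1 := rfl
      rw [h1, pow_one] at this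
      exact this
    obtain ⟨w, hw, hprod⟩ := hnd 1 θ (one_pow 7) hθ s s.2 (smul_one _) hsθ
    have hζ7 : ζ ^ 7 = 1 := hζ.pow_eq_one
    have hspow : ∀ (i : ℕ), ((s ^ i : HZ F ζ)) • θ = ζ ^ i * θ := by
      intro i
      induction i with
      | zero => simp
      | succ i ih =>
        rw [pow_succ', mul_smul, ih]
        have h1 : s • (ζ ^ i * θ) = (s • ζ) ^ i * (s • θ) := by
          rw [smul_mul', smul_pow']
        have h2 : s • ζ = ζ := s.2
        have h3 : s • θ = ζ * θ := hsθ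
        rw [h1, h2, h3, pow_succ', ← mul_assoc, mul_comm (ζ ^ i) ζ]
    have hfix : ∀ g : HZ F ζ, g • θ = θ → g • w = w := fun g hg => hw g g.2 (smul_one _) hg
    have e1 : n = ∏ i : ZMod 7, (s ^ i.val : HZ F ζ) • w := by
      rw [prod_zmod (fun i => (s ^ i : HZ F ζ) • w)]
      exact hprod
    rw [e1]
    refine cup_norm hN hA 7 _ (k3 b hb) (k4 b hb) _ ?_
    intro g i
    -- `s ^ (i + χ g)` and `g s ^ i` agree on `θ`
    have h4 : ((s ^ (i + kum F ζ b g).val)⁻¹ * (g * s ^ i.val)) • θ = θ := by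
      rw [mul_smul, mul_smul, inv_smul_eq_iff, hspow, hspow]
      have h5 : g • (ζ ^ i.val * θ) = (g • ζ) ^ i.val * (g • θ) := by
        rw [smul_mul', smul_pow']
      have h6 : g • ζ = ζ := g.2
      rw [h5, h6, hact g, zpow_val_add hζ7, ← mul_assoc]
    have h7 := hfix _ h4
    rw [mul_smul, mul_smul, inv_smul_eq_iff] at h7
    exact h7.symm

/-- The product of the linear factors. -/
theorem prod_one_sub {Ω : Type u} [Field Ω] {ζ : Ωˣ} (hζ : IsPrimitiveRoot ζ 7) (θ : Ωˣ) :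
    ∏ i : ZMod 7, (1 - (ζ : Ω) ^ i.val * θ) = 1 - (θ : Ω) ^ 7 := by
  have hζ' : IsPrimitiveRoot (ζ : Ω) 7 := IsPrimitiveRoot.coe_units_iff.2 hζ
  have h1 := hζ'.pow_sub_pow_eq_prod_sub_mul (1 : Ω) (θ : Ω) (by norm_num)
  rw [one_pow] at h1
  rw [h1, prod_zmod (fun i => 1 - (ζ : Ω) ^ i * θ)]
  symm
  refine (Finset.prod_bij (fun i _ => (ζ : Ω) ^ i) ?_ ?_ ?_ ?_).symm
  · intro i _
    rw [Polynomial.mem_nthRootsFinset (by norm_num)]
    rw [← pow_mul, mul_comm, pow_mul, hζ'.pow_eq_one, one_pow]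
  · intro i hi j hj hij
    exact hζ'.pow_inj (Finset.mem_range.1 hi) (Finset.mem_range.1 hj) hij
  · intro x hx
    rw [Polynomial.mem_nthRootsFinset (by norm_num)] at hx
    obtain ⟨i, hi, hi2⟩ := hζ'.eq_pow_of_pow_eq_one hx
    exact ⟨i, Finset.mem_range.2 hi, hi2⟩
  · intro i _
    rfl

/-- Module SSTEIN. -/
theorem sstein (hN : NormDirStatement.{u}) (hDisc : DiscStatement.{u}) (hK : KumStatement.{u})
    (hZ : GcupZStatement.{u}) : SymSteinStatement.{u} := by
  intro F Ω _ _ _ _ _ ζ hζ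
  obtain ⟨k1, k2, k3, k4, k5, k6⟩ := hK F Ω ζ hζ
  have hA := disc_HZ F (hDisc F Ω) ζ
  have hζ7 : ζ ^ 7 = 1 := hζ.pow_eq_one
  constructor
  · intro b hb
    have z := cup_mem_Z2 hZ hA 7 b (inL_smul F hb) _ (k3 b hb) (k4 b hb)
    refine cls_eq_one z ?_
    have hθ := k1 b
    set θ := root7 b with hθdef
    have hact := k2 b θ hb hθ
    have e1 : b = ∏ i : ZMod 7, (ζ ^ i.val * θ) := by
      rw [prod_zmod (fun i => ζ ^ i * θ), Finset.prod_mul_distrib, Finset.prod_const,
        Finset.prod_pow_eq_pow_sum, Finset.card_range, hθ]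
      have h2 : ∑ i ∈ Finset.range 7, i = 7 * 3 := by decide
      rw [h2, pow_mul, hζ7, one_pow, one_mul]
    have h8 := cup_norm hN hA 7 _ (k3 b hb) (k4 b hb) (fun i : ZMod 7 => ζ ^ i.val * θ) (by
      intro g i
      have h5 : g • (ζ ^ i.val * θ) = (g • ζ) ^ i.val * (g • θ) := by
        rw [smul_mul', smul_pow']
      have h6 : g • ζ = ζ := g.2
      rw [h5, h6, hact g, zpow_val_add hζ7, ← mul_assoc])
    rw [← e1] at h8
    exact h8
  · intro a b ha hb hab
    have z := cup_mem_Z2 hZ hA 7 a (inL_smul F ha) _ (k3 b hb) (k4 b hb)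
    refine cls_eq_one z ?_
    have hθ := k1 b
    set θ := root7 b with hθdef
    have hact := k2 b θ hb hθ
    have hθ' : (θ : Ω) ^ 7 = b := by
      rw [← Units.val_pow_eq_pow_val, hθ]
    have e0 : ∏ i : ZMod 7, (1 - (ζ : Ω) ^ i.val * θ) = a := by
      rw [prod_one_sub hζ, hθ', ← hab]
      ring
    have hne : ∀ i : ZMod 7, (1 - (ζ : Ω) ^ i.val * θ) ≠ 0 := by
      intro i hi
      have h1 : ∏ i : ZMod 7, (1 - (ζ : Ω) ^ i.val * θ) = 0 :=
        Finset.prod_eq_zero (Finset.mem_univ i) hi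
      rw [e0] at h1
      exact a.ne_zero h1
    have e1 : a = ∏ i : ZMod 7, Units.mk0 (1 - (ζ : Ω) ^ i.val * θ) (hne i) := by
      apply Units.ext
      rw [Units.coe_prod]
      simp only [Units.val_mk0]
      exact e0.symm
    rw [e1]
    refine cup_norm hN hA 7 _ (k3 b hb) (k4 b hb) _ ?_
    intro g i
    apply Units.ext
    have h6 : g • ζ = ζ := g.2
    have h7 : g • θ = ζ ^ (kum F ζ b g).val * θ := hact g
    have h8 : ζ ^ (i + kum F ζ b g).val * θ = g • (ζ ^ i.val * θ) := by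
      rw [smul_mul', smul_pow', h6, h7, zpow_val_add hζ7, ← mul_assoc]
    have h9 := congrArg Units.val h8
    have h10 : ((g • Units.mk0 (1 - (ζ : Ω) ^ i.val * θ) (hne i) : Ωˣ) : Ω) =
        (g : Ω ≃ₐ[F] Ω) (1 - (ζ : Ω) ^ i.val * θ) := rfl
    have h11 : ((g • (ζ ^ i.val * θ) : Ωˣ) : Ω) = (g : Ω ≃ₐ[F] Ω) ((ζ : Ω) ^ i.val * θ) := by
      change (g : Ω ≃ₐ[F] Ω) ((ζ ^ i.val * θ : Ωˣ) : Ω) = _
      rw [Units.val_mul, Units.val_pow_eq_pow_val]
    rw [h11, Units.val_mul, Units.val_pow_eq_pow_val] at h9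
    rw [Units.val_mk0, h10, map_sub, map_one, h9]

end BR7.H38
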