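import Pool.Agent.Lib.MP_defcf3_al.BR.StageT
import Pool.Agent.Lib.MP_defcf3_al.BR.H50.Full

/-!
Modules SPLX, CORRES, CORCUP, KUMSURJ of project BR7, stage 2.
-/

set_option autoImplicit false

namespace BR7.H38

open BR7

universe u

section Alg

variable {A : Type*} [CommGroup A]

/-- the commutative group computation behind SPLX -/
theorem splx_aux (Fgh_x Fhp Fghp Fgh_p Fgq Fgqm Fqm Frm Frmm Fmm b1 b2 b3 : A)
    (e1 : Fgh_x * Fgh_p = Fhp * Fghp) (e2 : Fgq * Fgqm = Fqm * Fghp)
    (e3 : Frm * Fgqm = Fmm * Frmm) (e4 : Fmm = b2 * b1 * b3⁻¹) :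
    Fgh_x = (Fgq * Frm⁻¹ * b2) * (Fhp * Fqm⁻¹ * b1) * (Fgh_p * Frmm⁻¹ * b3)⁻¹ := by
  have h1 : Fgh_x = Fhp * Fghp * Fgh_p⁻¹ := by rw [← e1, mul_inv_cancel_right]
  have h2 : Fghp = Fqm⁻¹ * (Fgq * Fgqm) := by rw [e2, inv_mul_cancel_left]
  have h3 : Fgqm = Frm⁻¹ * (Fmm * Frmm) := by rw [← e3, inv_mul_cancel_left]
  rw [h1, h2, h3, e4]
  simp only [mul_inv, inv_inv]
  ac_rfl

end Alg

section

variable {G A : Type u} [Group G] [TopologicalSpace G] [IsTopologicalGroup G] [CommGroup A]
  [MulDistribMulAction G A]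

omit [TopologicalSpace G] [IsTopologicalGroup G] in
theorem smul_base_iff (H : Subgroup G) (g : G) :
    g • (QuotientGroup.mk 1 : G ⧸ H) = QuotientGroup.mk 1 ↔ g ∈ H := by
  change (QuotientGroup.mk (g * 1) : G ⧸ H) = QuotientGroup.mk 1 ↔ g ∈ H
  rw [mul_one, eq_comm, QuotientGroup.eq, inv_one, one_mul]

theorem openStab_quot (H : Subgroup G) (hH : IsOpen (H : Set G)) : OpenStab G (G ⧸ H) := by
  intro x
  obtain ⟨k, rfl⟩ := QuotientGroup.mk_surjective x
  have h1 : {g : G | g • (QuotientGroup.mk k : G ⧸ H) = QuotientGroup.mk k} =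
      (fun g : G => k⁻¹ * g * k) ⁻¹' (H : Set G) := by
    ext g
    simp only [Set.mem_ofPred_eq, Set.mem_preimage, SetLike.mem_coe]
    change (QuotientGroup.mk (g * k) : G ⧸ H) = QuotientGroup.mk k ↔ _
    rw [eq_comm, QuotientGroup.eq, mul_assoc]
  rw [h1]
  exact hH.preimage ((continuous_const.mul continuous_id).mul continuous_const)

end

/-- Module SPLX. -/
theorem splx : SplXStatement.{u} := by
  intro G A _ _ _ _ _ hA H hH Fc hc hco hb
  obtain ⟨b, hbc, hb⟩ := hb
  have hX := openStab_quot H hH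
  set x0 : G ⧸ H := QuotientGroup.mk 1 with hx0
  -- representatives
  let kk : G ⧸ H → G := Quotient.out
  have hkk : ∀ x, kk x • x0 = x := by
    intro x
    change (QuotientGroup.mk (kk x * 1) : G ⧸ H) = x
    rw [mul_one]
    exact Quotient.out_eq x
  have hmem : ∀ g x, (kk (g • x))⁻¹ * g * kk x ∈ H := by
    intro g x
    rw [← smul_base_iff, mul_assoc, mul_smul, mul_smul, inv_smul_eq_iff]
    change g • kk x • x0 = kk (g • x) • x0
    rw [hkk, hkk]
  let mm : G → (G ⧸ H) → H := fun g x => ⟨(kk (g • x))⁻¹ * g * kk x, hmem g x⟩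
  have hHx : ∀ m : H, (m : G) • x0 = x0 := fun m => (smul_base_iff H m).mpr m.2
  let a : G → (G ⧸ H) → A := fun g x =>
    Fc g (kk x) x0 * (Fc (kk (g • x)) (mm g x) x0)⁻¹ * (kk (g • x) • b (mm g x))
  refine ⟨a, ?_, ?_⟩
  · intro x
    have h1 : IsLocallyConstant (fun g : G => kk (g • x)) := (lc_smulX hX x).comp kk
    have h2 : Continuous (fun g : G => mm g x) := by
      apply Continuous.subtype_mk
      exact (h1.continuous.inv.mul continuous_id).mul continuous_const
    have h3 : IsLocallyConstant (fun g : G => Fc g (kk x) x0) :=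
      (hc x0).comp_continuous (f := fun g : G => (g, kk x))
        (continuous_id.prodMk continuous_const)
    have h4 : IsLocallyConstant (fun g : G => Fc (kk (g • x)) (mm g x) x0) :=
      (hc x0).comp_continuous (f := fun g : G => (kk (g • x), (mm g x : G)))
        (h1.continuous.prodMk (continuous_subtype_val.comp h2))
    have h5 : IsLocallyConstant (fun g : G => b (mm g x)) := hbc.comp_continuous h2
    have h6 : IsLocallyConstant (fun g : G => kk (g • x) • b (mm g x)) :=
      (h1.prodMk h5).comp fun p => p.1 • p.2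
    exact (h3.mul h4.inv).mul h6
  · intro g h x
    -- the elements
    have em1 : kk (h • x) * (mm h x : G) = h * kk x := by
      change kk (h • x) * ((kk (h • x))⁻¹ * h * kk x) = _
      group
    have em2 : kk (g • h • x) * (mm g (h • x) : G) = g * kk (h • x) := by
      change kk (g • h • x) * ((kk (g • h • x))⁻¹ * g * kk (h • x)) = _
      group
    have em3 : (mm (g * h) x : G) = (mm g (h • x) : G) * (mm h x : G) := by
      change (kk ((g * h) • x))⁻¹ * (g * h) * kk x =
        ((kk (g • h • x))⁻¹ * g * kk (h • x)) * ((kk (h • x))⁻¹ * h * kk x)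
      rw [mul_smul]
      group
    have em3' : mm (g * h) x = mm g (h • x) * mm h x := Subtype.ext em3
    have e1 := hco g h (kk x) x0
    rw [hkk] at e1
    have e2 := hco g (kk (h • x)) (mm h x) x0
    rw [hHx, em1] at e2
    have e3 := hco (kk (g • h • x)) (mm g (h • x)) (mm h x) x0
    rw [hHx, em2, ← em3] at e3
    have e4 := congrArg (fun t => kk (g • h • x) • t) (hb (mm g (h • x)) (mm h x))
    simp only [smul_mul', smul_inv'] at e4
    have e5 : kk (g • h • x) • (mm g (h • x) • b (mm h x)) = g • kk (h • x) • b (mm h x) := by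
      change kk (g • h • x) • ((mm g (h • x) : G) • b (mm h x)) = _
      rw [← mul_smul, em2, mul_smul]
    rw [e5, ← em3'] at e4
    have key := splx_aux (Fc g h x) (g • Fc h (kk x) x0) (Fc g (h * kk x) x0)
      (Fc (g * h) (kk x) x0) (Fc g (kk (h • x)) x0) (Fc (g * kk (h • x)) (mm h x) x0)
      (g • Fc (kk (h • x)) (mm h x) x0) (Fc (kk (g • h • x)) (mm g (h • x)) x0)
      (Fc (kk (g • h • x)) (mm (g * h) x) x0)
      (kk (g • h • x) • Fc (mm g (h • x)) (mm h x) x0)
      (g • kk (h • x) • b (mm h x)) (kk (g • h • x) • b (mm g (h • x)))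
      (kk (g • h • x) • b (mm (g * h) x)) e1 e2 e3 e4
    rw [key]
    change _ = Fc g (kk (h • x)) x0 * (Fc (kk (g • h • x)) (mm g (h • x)) x0)⁻¹ *
        (kk (g • h • x) • b (mm g (h • x))) *
      (g • (Fc h (kk x) x0 * (Fc (kk (h • x)) (mm h x) x0)⁻¹ * (kk (h • x) • b (mm h x)))) *
      (Fc (g * h) (kk x) x0 * (Fc (kk ((g * h) • x)) (mm (g * h) x) x0)⁻¹ *
        (kk ((g * h) • x) • b (mm (g * h) x)))⁻¹
    rw [smul_mul', smul_mul', smul_inv', mul_smul g h x]

/-- product over the cosets -/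
theorem prod_splx {G A : Type u} [Group G] [TopologicalSpace G] [IsTopologicalGroup G]
    [CommGroup A] [MulDistribMulAction G A] (H : Subgroup G) [Fintype (G ⧸ H)]
    (Fc : G → G → (G ⧸ H) → A) (a : G → (G ⧸ H) → A) (ha : ∀ x, IsLocallyConstant (fun g => a g x))
    (h : ∀ g h x, Fc g h x = a g (h • x) * (g • a h x) * (a (g * h) x)⁻¹) :
    (fun g h => ∏ x, Fc g h x) ∈ B2 G A := by
  refine ⟨fun g => ∏ x, a g x, lc_prod _ ha, fun g k => ?_⟩
  have e1 : ∏ x, a g x = ∏ x, a g (k • x) := by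
    rw [← Equiv.prod_comp (MulAction.toPerm k)]
    rfl
  have e2 : g • ∏ x, a k x = ∏ x, g • a k x := Finset.smul_prod' ..
  beta_reduce
  rw [e1, e2, ← Finset.prod_mul_distrib, ← Finset.prod_inv_distrib, ← Finset.prod_mul_distrib]
  exact Finset.prod_congr rfl fun x _ => h g k x

/-- Module CORRES. -/
theorem corres : CorResStatement.{u} := by
  intro G A _ _ _ _ _ hA H hH _ f hf hfH
  obtain ⟨a, ha, he⟩ := splx G A hA H hH (fun g h _ => f g h) (fun _ => hf.1)
    (fun g h k _ => hf.2 g h k) hfH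
  have : Fintype (G ⧸ H) := Fintype.ofFinite _
  have h1 := prod_splx H (fun g h _ => f g h) a ha he
  have h2 : (fun g h => ∏ _x : G ⧸ H, f g h) = f ^ H.index := by
    funext g h
    rw [Finset.prod_const, Finset.card_univ, Subgroup.index_eq_card, Nat.card_eq_fintype_card]
    rfl
  rw [h2] at h1
  exact h1

/-- Module CORCUP. -/
theorem corcup : CorCupStatement.{u} := by
  intro G A _ _ _ _ _ hA H hH _ n _ f hf v ψ hv hψ hc hb
  have hX := openStab_quot H hH
  let Fc : G → G → (G ⧸ H) → A := fun g h x =>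
    f g h * (v ((g * h) • x) ^ carry n (ψ g (h • x)) (ψ h x))⁻¹
  have hlc : ∀ x, IsLocallyConstant (fun p : G × G => Fc p.1 p.2 x) := by
    intro x
    refine hf.1.mul (IsLocallyConstant.inv ?_)
    rw [IsLocallyConstant.iff_eventually_eq]
    intro p0
    have h0 := (((lc_smulX hX x).comp_continuous
      (f := fun p : G × G => p.1 * p.2) (continuous_fst.mul continuous_snd)).eventually_eq p0)
    have h1 := (lc_two hX ψ hc x).eventually_eq p0
    have h2 := ((hc x).comp_continuous (continuous_snd (X := G) (Y := G))).eventually_eq p0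
    filter_upwards [h0, h1, h2] with p e0 e1 e2
    simp only [Function.comp_apply] at e0 e1 e2
    rw [e0, e1, e2]
  have hco : ∀ g h k x, Fc g h (k • x) * Fc (g * h) k x = (g • Fc h k x) * Fc g (h * k) x := by
    intro g h k x
    have e := hf.2 g h k
    have e1 := carry_cocycle n (ψ g (h • k • x)) (ψ h (k • x)) (ψ k x)
    change f g h * (v ((g * h) • k • x) ^ carry n (ψ g (h • k • x)) (ψ h (k • x)))⁻¹ *
      (f (g * h) k * (v ((g * h * k) • x) ^ carry n (ψ (g * h) (k • x)) (ψ k x))⁻¹) =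
      (g • (f h k * (v ((h * k) • x) ^ carry n (ψ h (k • x)) (ψ k x))⁻¹)) *
      (f g (h * k) * (v ((g * (h * k)) • x) ^ carry n (ψ g ((h * k) • x)) (ψ (h * k) x))⁻¹)
    have e2 : (g * h) • k • x = (g * (h * k)) • x := by rw [← mul_smul, mul_assoc]
    have e3 : g • (v ((h * k) • x)) = v ((g * (h * k)) • x) := by rw [← hv, ← mul_smul]
    rw [smul_mul', smul_inv', smul_pow', e3, e2, mul_assoc g h k, hψ g h (k • x), hψ h k x,
      mul_smul h k x]
    rw [mul_mul_mul_comm, mul_mul_mul_comm (g • f h k), e, ← mul_inv, ← mul_inv, ← pow_add,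
      ← pow_add, e1]
  have hbase : (fun g h : H => Fc g h (QuotientGroup.mk 1)) ∈ B2 H A := by
    have h1 : (fun g h : H => Fc g h (QuotientGroup.mk 1)) =
        (fun g h : H => f g h * (cup n (v (QuotientGroup.mk 1))
          (fun k : H => ψ k (QuotientGroup.mk 1)) g h)⁻¹) := by
      funext g h
      have e1 : (h : G) • (QuotientGroup.mk 1 : G ⧸ H) = QuotientGroup.mk 1 :=
        (smul_base_iff H h).mpr h.2
      have e2 : ((g : G) * h) • (QuotientGroup.mk 1 : G ⧸ H) = QuotientGroup.mk 1 :=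
        (smul_base_iff H _).mpr (mul_mem g.2 h.2)
      change f g h * (v (((g : G) * h) • QuotientGroup.mk 1) ^
        carry n (ψ g ((h : G) • QuotientGroup.mk 1)) (ψ h (QuotientGroup.mk 1)))⁻¹ = _
      rw [e1, e2]
      rfl
    rw [h1]
    exact hb
  obtain ⟨a, ha, he⟩ := splx G A hA H hH Fc hlc hco hbase
  have h1 := prod_splx H Fc a ha he
  have h2 : (fun g h => ∏ x, Fc g h x) = f ^ (Fintype.card (G ⧸ H)) * (gcup n v ψ)⁻¹ := by
    funext g h
    change ∏ x, f g h * (v ((g * h) • x) ^ carry n (ψ g (h • x)) (ψ h x))⁻¹ = _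
    rw [Finset.prod_mul_distrib, Finset.prod_const, Finset.card_univ, Finset.prod_inv_distrib]
    rfl
  rw [h2] at h1
  exact h1

/-- Module KUMSURJ. -/
theorem kumsurj : KumSurjStatement.{u} := by
  intro F Ω _ _ _ _ _ ζ hζ P hP χ hχ hc
  have hζ7 : ζ ^ 7 = 1 := hζ.pow_eq_one
  have h1 := H22.h90 F Ω (HZ F ζ) (isOpen_HZ F ζ) P hP (fun g => ζ ^ (χ g).val)
    (hc.comp fun i => ζ ^ i.val) (fun g h => by
      have h2 : g • ζ = ζ := g.1.2
      rw [hχ, zpow_val_add hζ7, smul_pow', h2])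
  obtain ⟨a, ha⟩ := h1
  exact ⟨a, fun g => by rw [ha g, inv_mul_cancel_right]⟩

end BR7.H38
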