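import Pool.Agent.Lib.MP_defcf3_al.BR.StageT
import Pool.Agent.Lib.MP_defcf3_al.BR.H50.Full

/-!
Modules KUMX, SXADD, SXPUSH of project BR7, stage 2.
-/

set_option autoImplicit false

namespace BR7.H38

open BR7

universe u

/-- Module KUMX. -/
theorem kumx : KumXStatement.{u} := by
  intro F Ω _ _ _ _ _ ζ hζ X _ hX v hv
  obtain ⟨k1, -, -, -, -, -⟩ := H50.Full.kum F Ω ζ hζ
  obtain ⟨d1, d2, d3⟩ := H4.dlog Ω 7 ζ hζ
  have hA := disc_HZ F (H4.disc F Ω) ζ
  have hζ7 : ζ ^ 7 = 1 := hζ.pow_eq_one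
  -- the basic relation
  have hmu : ∀ (h : HZ F ζ) (x : X), ((h • root7 (v x)) * (root7 (v (h • x)))⁻¹) ^ 7 = 1 := by
    intro h x
    rw [mul_pow, inv_pow, k1, ← smul_pow', k1, hv]
    exact mul_inv_cancel _
  have hK : ∀ (h : HZ F ζ) (x : X), h • root7 (v x) =
      ζ ^ (kumX F ζ v h x).val * root7 (v (h • x)) := by
    intro h x
    have h1 := d1 _ (hmu h x)
    have h2 : ζ ^ (kumX F ζ v h x).val = (h • root7 (v x)) * (root7 (v (h • x)))⁻¹ := h1
    rw [h2, inv_mul_cancel_right]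
  have hinj : ∀ i j : ZMod 7, ζ ^ i.val = ζ ^ j.val → i = j := by
    intro i j hij
    rw [← d3 i, ← d3 j, hij]
  have hfix : ∀ (h : HZ F ζ) (i : ℕ), h • (ζ ^ i) = ζ ^ i := by
    intro h i
    rw [smul_pow']
    have : h • ζ = ζ := h.2
    rw [this]
  refine ⟨?_, ?_, ?_⟩
  · intro g h x
    apply hinj
    have h1 := hK (g * h) x
    rw [mul_smul, hK h x, smul_mul', hfix, hK g (h • x), ← mul_assoc, mul_smul] at h1
    rw [add_comm, zpow_val_add hζ7]
    exact (mul_right_cancel h1).symm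
  · intro x
    have h1 := lc_smulA hA (root7 (v x))
    have h2 := lc_smulX hX x
    exact (h1.prodMk h2).comp fun p => dlog 7 ζ (p.1 * (root7 (v p.2))⁻¹)
  · intro θ hθ ψ hψ
    have hr : ∀ x, ζ ^ (dlog 7 ζ (θ x * (root7 (v x))⁻¹)).val * root7 (v x) = θ x := by
      intro x
      have h1 : (θ x * (root7 (v x))⁻¹) ^ 7 = 1 := by
        rw [mul_pow, inv_pow, k1, hθ]
        exact mul_inv_cancel _
      rw [d1 _ h1, inv_mul_cancel_right]
    refine ⟨fun x => -dlog 7 ζ (θ x * (root7 (v x))⁻¹), fun h x => ?_⟩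
    have h1 := hψ h x
    rw [← hr x, smul_mul', hfix, hK h x, ← hr (h • x), ← mul_assoc, ← mul_assoc,
      ← zpow_val_add hζ7, ← zpow_val_add hζ7] at h1
    have h2 := hinj _ _ (mul_right_cancel h1)
    linear_combination -h2

section

variable {G A X : Type u} [Group G] [TopologicalSpace G] [IsTopologicalGroup G] [CommGroup A]
  [MulDistribMulAction G A] [MulAction G X] [Fintype X]

omit [TopologicalSpace G] [IsTopologicalGroup G] [MulDistribMulAction G A] in
theorem gcup_mul (n : ℕ) (u u' : X → A) (χ : G → X → ZMod n) :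
    gcup n (u * u') χ = gcup n u χ * gcup n u' χ := by
  funext g h
  simp only [gcup, Pi.mul_apply, mul_pow, Finset.prod_mul_distrib]

theorem cls_gcup_add (hA : Disc G A) (hX : OpenStab G X) (n : ℕ) [NeZero n] {u : X → A}
    (hu : EqvF (G := G) u) {χ ψ : G → X → ZMod n} (hχ : GChar n χ) (hψ : GChar n ψ)
    (hc : ∀ x, IsLocallyConstant (fun g => χ g x)) (hc' : ∀ x, IsLocallyConstant (fun g => ψ g x)) :
    cls G A (gcup n u (fun g x => χ g x + ψ g x)) =
      cls G A (gcup n u χ) * cls G A (gcup n u ψ) := by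
  have z1 := gz G A X hA hX n u χ hu hχ hc
  have z2 := gz G A X hA hX n u ψ hu hψ hc'
  have z3 : gcup n u (fun g x => χ g x + ψ g x) ∈ Z2 G A := by
    refine gz G A X hA hX n u _ hu ?_ fun x => (hc x).add (hc' x)
    intro g h x
    change χ (g * h) x + ψ (g * h) x = χ g (h • x) + ψ g (h • x) + (χ h x + ψ h x)
    rw [hχ, hψ]
    ring
  rw [← cls_mul z1 z2]
  exact cls_eq z3 (mul_mem z1 z2) (gadd G A X hA hX n u χ ψ hu hχ hψ hc hc')

/-- Characters which differ by a coboundary have the same symbols. -/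
theorem cls_gcup_congr (hA : Disc G A) (hX : OpenStab G X) (n : ℕ) [NeZero n] {u : X → A}
    (hu : EqvF (G := G) u) {χ ψ : G → X → ZMod n} (hχ : GChar n χ)
    (hc : ∀ x, IsLocallyConstant (fun g => χ g x)) {ρ : X → ZMod n}
    (h : ∀ g x, ψ g x = χ g x + (ρ (g • x) - ρ x)) :
    cls G A (gcup n u ψ) = cls G A (gcup n u χ) := by
  have e : ψ = fun g x => χ g x + (fun g x => ρ (g • x) - ρ x) g x := by
    funext g x
    exact h g x
  have hcob : GChar n (fun (g : G) (x : X) => ρ (g • x) - ρ x) := by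
    intro g k x
    change ρ ((g * k) • x) - ρ x = ρ (g • (k • x)) - ρ (k • x) + (ρ (k • x) - ρ x)
    rw [mul_smul]
    ring
  have hcobc : ∀ x, IsLocallyConstant (fun g : G => ρ (g • x) - ρ x) := fun x =>
    (lc_smulX hX x).comp fun y => ρ y - ρ x
  rw [e, cls_gcup_add hA hX n hu hχ hcob hc hcobc,
    cls_eq_one (gz G A X hA hX n u _ hu hcob hcobc) (gcob G A X hA hX n u ρ hu), mul_one]

end

/-- Module SXADD. -/
theorem sxadd : SymXAddStatement.{u} := by
  intro F Ω _ _ _ _ _ ζ hζ X _ _ hX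
  have hA := disc_HZ F (H4.disc F Ω) ζ
  have z : ∀ u v : X → Ωˣ, EqvF (G := HZ F ζ) u → EqvF (G := HZ F ζ) v →
      gcup 7 u (kumX F ζ v) ∈ Z2 (HZ F ζ) Ωˣ := by
    intro u v hu hv
    obtain ⟨a1, a2, -⟩ := kumx F Ω ζ hζ X hX v hv
    exact gz (HZ F ζ) Ωˣ X hA hX 7 u _ hu a1 a2
  refine ⟨?_, ?_, ?_⟩
  · intro u v hu hv
    refine ⟨z u v hu hv, ?_⟩
    obtain ⟨a1, a2, -⟩ := kumx F Ω ζ hζ X hX v hv
    unfold symX
    rw [← cls_pow (z u v hu hv)]
    exact cls_eq_one (pow_mem (z u v hu hv) 7) (gtors (HZ F ζ) Ωˣ X hA hX 7 u _ hu a1 a2)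
  · intro u u' v hu hu' hv
    unfold symX
    rw [gcup_mul, cls_mul (z u v hu hv) (z u' v hu' hv)]
  · intro u v v' hu hv hv'
    obtain ⟨k1, -, -, -, -, -⟩ := H50.Full.kum F Ω ζ hζ
    obtain ⟨d1, d2, d3⟩ := H4.dlog Ω 7 ζ hζ
    have hζ7 : ζ ^ 7 = 1 := hζ.pow_eq_one
    have hvv : EqvF (G := HZ F ζ) (v * v') := by
      intro g x
      simp only [Pi.mul_apply, hv g x, hv' g x, smul_mul']
    obtain ⟨a1, a2, -⟩ := kumx F Ω ζ hζ X hX v hv
    obtain ⟨b1, b2, -⟩ := kumx F Ω ζ hζ X hX v' hv'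
    obtain ⟨c1, c2, c3⟩ := kumx F Ω ζ hζ X hX (v * v') hvv
    have hK : ∀ w : X → Ωˣ, EqvF (G := HZ F ζ) w → ∀ (h : HZ F ζ) (x : X), h • root7 (w x) =
        ζ ^ (kumX F ζ w h x).val * root7 (w (h • x)) := by
      intro w hw h x
      have h0 : ((h • root7 (w x)) * (root7 (w (h • x)))⁻¹) ^ 7 = 1 := by
        rw [mul_pow, inv_pow, k1, ← smul_pow', k1, hw]
        exact mul_inv_cancel _
      have h2 : ζ ^ (kumX F ζ w h x).val = (h • root7 (w x)) * (root7 (w (h • x)))⁻¹ := d1 _ h0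
      rw [h2, inv_mul_cancel_right]
    obtain ⟨ρ, hρ⟩ := c3 (fun x => root7 (v x) * root7 (v' x))
      (fun x => by rw [mul_pow, k1, k1]; rfl)
      (fun h x => kumX F ζ v h x + kumX F ζ v' h x) (fun h x => by
        rw [smul_mul', hK v hv, hK v' hv', zpow_val_add hζ7]
        exact mul_mul_mul_comm _ _ _ _)
    unfold symX
    rw [← cls_gcup_congr hA hX 7 hu c1 c2 hρ, cls_gcup_add hA hX 7 hu a1 b1 a2 b2]

/-- Module SXPUSH. -/
theorem sxpush : SymXPushStatement.{u} := by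
  intro F Ω _ _ _ _ _ ζ hζ
  constructor
  · intro X Y _ _ _ _ _ π hπ u v
    unfold symX
    have h1 : kumX F ζ (v ∘ π) = fun h x => kumX F ζ v h (π x) := by
      funext h x
      simp only [kumX, Function.comp_apply, hπ]
    rw [h1, push (HZ F ζ) Ωˣ X Y 7 π hπ u (kumX F ζ v)]
  · intro X _ _ x0 hx0 a b
    unfold symX symb
    congr 1
    funext g h
    have hX : (Finset.univ : Finset X) = {x0} := by
      ext x
      simp [hx0 x]
    simp only [gcup, cup, hX, Finset.prod_singleton]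
    rfl

end BR7.H38
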