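import Pool.Agent.Lib.MP_defcf3_al.BR.H38.SymX

/-!
Modules SXSTEIN, SXIDENT, SXMUL of project BR7, stage 2.
-/

set_option autoImplicit false

namespace BR7.H38

open BR7

universe u

section Aux

variable {M : Type*} [CommGroup M]

theorem aux_one {x : M} (h : x = x * x) : x = 1 := by
  have h1 : x * x = x * 1 := by rw [mul_one]; exact h.symm
  exact mul_left_cancel h1

theorem aux_zero_pow (f : ℕ → M) (a : M) (h0 : f 0 = 1) (h : ∀ k, f (k + 1) = f k * a) (k : ℕ) :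
    f k = a ^ k := by
  induction k with
  | zero => rw [h0, pow_zero]
  | succ k ih => rw [h, ih, pow_succ]

theorem aux_inv {x y z : M} (hz : z = 1) (h : z = x * y) : x = y⁻¹ := by
  rw [hz] at h
  exact eq_inv_of_mul_eq_one_left h.symm

theorem aux_anti {a b c d : M} (ha : a = 1) (hd : d = 1) (h : a * b * (c * d) = 1) :
    b * c = 1 := by
  rw [ha, hd, one_mul, mul_one] at h
  exact h

theorem aux_ident {a b c d : M} (hd : d = 1) (h : a * b⁻¹ * (c⁻¹ * (d⁻¹)⁻¹) = 1) :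
    b * c = a := by
  rw [hd, inv_one, inv_one, mul_one, mul_inv_eq_one, mul_inv_eq_iff_eq_mul] at h
  rw [h, mul_comm]

end Aux

section Roots

variable {F : Type u} {Ω : Type u} [Field F] [Field Ω] [Algebra F Ω] (ζ : Ωˣ)
variable {X : Type u} [MulAction (HZ F ζ) X] (v : X → Ωˣ)

/-- the set of pairs of a point and a seventh root of the value -/
def RT (_ : EqvF (G := HZ F ζ) v) : Type u := {p : X × Ωˣ // p.2 ^ 7 = v p.1}

instance (hv : EqvF (G := HZ F ζ) v) : MulAction (HZ F ζ) (RT ζ v hv) where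
  smul h p := ⟨(h • p.1.1, h • p.1.2), by
    change (h • p.1.2) ^ 7 = v (h • p.1.1)
    rw [← smul_pow', p.2, hv]⟩
  one_smul p := Subtype.ext (Prod.ext (one_smul _ _) (one_smul _ _))
  mul_smul g h p := Subtype.ext (Prod.ext (mul_smul _ _ _) (mul_smul _ _ _))

variable {ζ v}

theorem RT_smul_fst (hv : EqvF (G := HZ F ζ) v) (h : HZ F ζ) (p : RT ζ v hv) :
    (h • p).1.1 = h • p.1.1 := rfl

theorem RT_smul_snd (hv : EqvF (G := HZ F ζ) v) (h : HZ F ζ) (p : RT ζ v hv) :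
    (h • p).1.2 = h • p.1.2 := rfl

variable (hζ : IsPrimitiveRoot ζ 7) (hroot : ∀ b : Ωˣ, root7 b ^ 7 = b)

/-- parametrization of the pairs -/
noncomputable def RTe (hζ : IsPrimitiveRoot ζ 7) (hroot : ∀ b : Ωˣ, root7 b ^ 7 = b)
    (hv : EqvF (G := HZ F ζ) v) : X × ZMod 7 ≃ RT ζ v hv :=
  Equiv.ofBijective (fun q => ⟨(q.1, ζ ^ q.2.val * root7 (v q.1)), by
      change (ζ ^ q.2.val * root7 (v q.1)) ^ 7 = v q.1
      rw [mul_pow, hroot, ← pow_mul, mul_comm q.2.val, pow_mul, hζ.pow_eq_one, one_pow, one_mul]⟩)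
    (by
    obtain ⟨d1, -, d3⟩ := H4.dlog Ω 7 ζ hζ
    constructor
    · rintro ⟨x, i⟩ ⟨y, j⟩ h
      have h1 := congrArg (fun p : RT ζ v hv => p.1.1) h
      have h2 := congrArg (fun p : RT ζ v hv => p.1.2) h
      simp only at h1 h2
      subst h1
      have h3 := mul_right_cancel h2
      have h4 : i = j := by rw [← d3 i, ← d3 j, h3]
      rw [h4]
    · rintro ⟨⟨x, θ⟩, hθ⟩
      have h1 : (θ * (root7 (v x))⁻¹) ^ 7 = 1 := by
        rw [mul_pow, inv_pow, hroot, hθ]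
        exact mul_inv_cancel _
      refine ⟨(x, dlog 7 ζ (θ * (root7 (v x))⁻¹)), Subtype.ext (Prod.ext rfl ?_)⟩
      change ζ ^ (dlog 7 ζ (θ * (root7 (v x))⁻¹)).val * root7 (v x) = θ
      rw [d1 _ h1, inv_mul_cancel_right])

end Roots

/-- the projection formula on the set of roots: the common part of the two relations -/
theorem root_trick (F Ω : Type u) [Field F] [Field Ω] [Algebra F Ω] [IsGalois F Ω]
    [IsSepClosed Ω] (ζ : Ωˣ) (hζ : IsPrimitiveRoot ζ 7) (X : Type u) [MulAction (HZ F ζ) X]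
    [Fintype X] (hX : OpenStab (HZ F ζ) X) (u v : X → Ωˣ) (hv : EqvF (G := HZ F ζ) v)
    (f : Ωˣ → Ωˣ) (hf : ∀ x (θ : Ωˣ), θ ^ 7 = v x → ∀ h : HZ F ζ, f (h • θ) = h • f θ)
    (hu : ∀ x, u x = ∏ i : ZMod 7, f (ζ ^ i.val * root7 (v x))) :
    symX F ζ u v = 1 := by
  classical
  obtain ⟨k1, -, -, -, -, -⟩ := H50.Full.kum F Ω ζ hζ
  have hA := disc_HZ F (H4.disc F Ω) ζ
  let e := RTe (F := F) hζ k1 hv
  let _ : Fintype (RT ζ v hv) := Fintype.ofEquiv _ e
  have hO : OpenStab (HZ F ζ) (RT ζ v hv) := by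
    intro p
    have h1 : {g : HZ F ζ | g • p = p} = {g : HZ F ζ | g • p.1.1 = p.1.1} ∩
        {g : HZ F ζ | g • p.1.2 = p.1.2} := by
      ext g
      simp only [Set.mem_ofPred_eq, Set.mem_inter_iff]
      constructor
      · intro h
        have h2 := congrArg (fun p : RT ζ v hv => p.1.1) h
        have h3 := congrArg (fun p : RT ζ v hv => p.1.2) h
        exact ⟨h2, h3⟩
      · rintro ⟨h2, h3⟩
        exact Subtype.ext (Prod.ext h2 h3)
    rw [h1]
    exact (hX _).inter (hA _)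
  let w : RT ζ v hv → Ωˣ := fun p => f p.1.2
  let θ : RT ζ v hv → Ωˣ := fun p => p.1.2
  have hw : EqvF (G := HZ F ζ) w := fun g p => hf p.1.1 p.1.2 p.2 g
  have hθ : EqvF (G := HZ F ζ) θ := fun g p => rfl
  obtain ⟨s1, s2, s3⟩ := sxadd F Ω ζ hζ (RT ζ v hv) hO
  obtain ⟨p1, -⟩ := sxpush F Ω ζ hζ
  -- powers in the second entry
  have hpow : ∀ k : ℕ, EqvF (G := HZ F ζ) (θ ^ k) := by
    intro k g p
    change (g • p.1.2) ^ k = g • (p.1.2 ^ k)
    rw [smul_pow']
  have hone : symX F ζ w (1 : RT ζ v hv → Ωˣ) = 1 := by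
    have h1 : EqvF (G := HZ F ζ) (1 : RT ζ v hv → Ωˣ) := fun g p => (smul_one g).symm
    have h2 := s3 w 1 1 hw h1 h1
    rw [one_mul] at h2
    exact aux_one h2
  have hk : ∀ k : ℕ, symX F ζ w (θ ^ k) = symX F ζ w θ ^ k := by
    intro k
    refine aux_zero_pow (fun k => symX F ζ w (θ ^ k)) _ ?_ ?_ k
    · change symX F ζ w (θ ^ 0) = 1
      rw [pow_zero]
      exact hone
    · intro k
      change symX F ζ w (θ ^ (k + 1)) = symX F ζ w (θ ^ k) * _
      rw [pow_succ]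
      exact s3 w (θ ^ k) θ hw (hpow k) hθ
  have h7 : symX F ζ w (θ ^ 7) = 1 := by
    rw [hk]
    exact (s1 w θ hw hθ).2
  let π : RT ζ v hv → X := fun p => p.1.1
  have h8 := p1 (RT ζ v hv) X π (fun h p => rfl) w v
  have h9 : v ∘ π = θ ^ 7 := by
    funext p
    exact p.2.symm
  rw [h9, h7] at h8
  have h10 : (fun y => ∏ x ∈ Finset.univ.filter (fun x => π x = y), w x) = u := by
    funext y
    rw [hu y, Finset.prod_filter, ← Equiv.prod_comp e, Fintype.prod_prod_type]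
    have h11 : ∀ x : X, ∏ i : ZMod 7, (if π (e (x, i)) = y then w (e (x, i)) else 1) =
        if x = y then ∏ i : ZMod 7, f (ζ ^ i.val * root7 (v x)) else 1 := by
      intro x
      by_cases hxy : x = y
      · rw [if_pos hxy]
        refine Finset.prod_congr rfl fun i _ => ?_
        rw [if_pos (show π (e (x, i)) = y from hxy)]
        rfl
      · rw [if_neg hxy]
        refine Finset.prod_eq_one fun i _ => ?_
        rw [if_neg (show ¬ π (e (x, i)) = y from hxy)]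
    simp only [h11]
    rw [Finset.prod_ite_eq' Finset.univ y, if_pos (Finset.mem_univ y)]
  rw [h10] at h8
  exact h8.symm

/-- Module SXSTEIN. -/
theorem sxstein : SymXSteinStatement.{u} := by
  intro F Ω _ _ _ _ _ ζ hζ X _ _ hX
  obtain ⟨k1, -, -, -, -, -⟩ := H50.Full.kum F Ω ζ hζ
  have hζ7 : ζ ^ 7 = 1 := hζ.pow_eq_one
  constructor
  · intro v hv
    refine root_trick F Ω ζ hζ X hX v v hv id (fun _ _ _ _ => rfl) fun x => ?_
    simp only [id_eq]
    rw [prod_zmod (fun i => ζ ^ i * root7 (v x)), Finset.prod_mul_distrib, Finset.prod_const,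
      Finset.prod_pow_eq_pow_sum, Finset.card_range, k1]
    have h2 : ∑ i ∈ Finset.range 7, i = 7 * 3 := by decide
    rw [h2, pow_mul, hζ7, one_pow, one_mul]
  · intro u v hu hv huv
    classical
    let f : Ωˣ → Ωˣ := fun θ => if h : (1 - (θ : Ω)) = 0 then 1 else Units.mk0 (1 - (θ : Ω)) h
    have hne : ∀ x (θ : Ωˣ), θ ^ 7 = v x → (1 - (θ : Ω)) ≠ 0 := by
      intro x θ hθ h0
      have h1 : (θ : Ω) = 1 := (sub_eq_zero.mp h0).symm
      have h2 : θ = 1 := Units.ext h1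
      rw [h2, one_pow] at hθ
      have h3 := huv x
      rw [← hθ] at h3
      have h4 : (u x : Ω) = 0 := by
        rw [Units.val_one] at h3
        exact add_eq_right.mp h3
      exact (u x).ne_zero h4
    have hf : ∀ x (θ : Ωˣ), θ ^ 7 = v x → ((f θ : Ωˣ) : Ω) = 1 - θ := by
      intro x θ hθ
      simp only [f]
      rw [dif_neg (hne x θ hθ)]
      rfl
    refine root_trick F Ω ζ hζ X hX u v hv f ?_ fun x => ?_
    · intro x θ hθ h
      apply Units.ext
      have h1 : (h • θ) ^ 7 = v (h • x) := by rw [← smul_pow', hθ, hv]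
      rw [hf (h • x) (h • θ) h1]
      change 1 - (h : Ω ≃ₐ[F] Ω) (θ : Ω) = (h : Ω ≃ₐ[F] Ω) ((f θ : Ωˣ) : Ω)
      rw [hf x θ hθ, map_sub, map_one]
    · apply Units.ext
      rw [Units.coe_prod]
      have h1 : ∀ i : ZMod 7, ((f (ζ ^ i.val * root7 (v x)) : Ωˣ) : Ω) =
          1 - (ζ : Ω) ^ i.val * (root7 (v x) : Ωˣ) := by
        intro i
        rw [hf x (ζ ^ i.val * root7 (v x)) (by
          rw [mul_pow, k1, ← pow_mul, mul_comm i.val, pow_mul, hζ7, one_pow, one_mul])]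
        rw [Units.val_mul, Units.val_pow_eq_pow_val]
      simp only [h1]
      rw [prod_one_sub hζ, ← Units.val_pow_eq_pow_val, k1, ← huv x]
      ring

section Alg

variable {F Ω : Type u} [Field F] [Field Ω] [Algebra F Ω] [IsGalois F Ω]
    [IsSepClosed Ω] {ζ : Ωˣ} (hζ : IsPrimitiveRoot ζ 7) {X : Type u} [MulAction (HZ F ζ) X]
    [Fintype X] (hX : OpenStab (HZ F ζ) X)

omit [IsGalois F Ω] [IsSepClosed Ω] [Fintype X] in
theorem eqvF_mul {u v : X → Ωˣ} (hu : EqvF (G := HZ F ζ) u) (hv : EqvF (G := HZ F ζ) v) :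
    EqvF (G := HZ F ζ) (u * v) := fun g x => by
  simp only [Pi.mul_apply, hu g x, hv g x, smul_mul']

omit [IsGalois F Ω] [IsSepClosed Ω] [Fintype X] in
theorem eqvF_inv {u : X → Ωˣ} (hu : EqvF (G := HZ F ζ) u) :
    EqvF (G := HZ F ζ) u⁻¹ := fun g x => by
  simp only [Pi.inv_apply, hu g x, smul_inv']

omit [IsGalois F Ω] [IsSepClosed Ω] [Fintype X] in
theorem eqvF_one : EqvF (G := HZ F ζ) (1 : X → Ωˣ) := fun g _ => (smul_one g).symm

include hζ hX in
theorem symX_inv_left {u v : X → Ωˣ} (hu : EqvF (G := HZ F ζ) u) (hv : EqvF (G := HZ F ζ) v) :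
    symX F ζ u⁻¹ v = (symX F ζ u v)⁻¹ := by
  obtain ⟨s1, s2, s3⟩ := sxadd F Ω ζ hζ X hX
  have h1 := s2 1 1 v eqvF_one eqvF_one hv
  rw [one_mul] at h1
  have h3 := s2 u⁻¹ u v (eqvF_inv hu) hu hv
  rw [inv_mul_cancel] at h3
  exact aux_inv (aux_one h1) h3

include hζ hX in
theorem symX_inv_right {u v : X → Ωˣ} (hu : EqvF (G := HZ F ζ) u) (hv : EqvF (G := HZ F ζ) v) :
    symX F ζ u v⁻¹ = (symX F ζ u v)⁻¹ := by
  obtain ⟨s1, s2, s3⟩ := sxadd F Ω ζ hζ X hX
  have h1 := s3 u 1 1 hu eqvF_one eqvF_one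
  rw [one_mul] at h1
  have h3 := s3 u v⁻¹ v hu (eqvF_inv hv) hv
  rw [inv_mul_cancel] at h3
  exact aux_inv (aux_one h1) h3

end Alg

/-- Module SXIDENT. -/
theorem sxident : SymXIdentStatement.{u} := by
  intro F Ω _ _ _ _ _ ζ hζ X _ _ hX
  obtain ⟨s1, s2, s3⟩ := sxadd F Ω ζ hζ X hX
  obtain ⟨t1, t2⟩ := sxstein F Ω ζ hζ X hX
  constructor
  · intro u v hu hv
    have h1 := t1 (u * v) (eqvF_mul hu hv)
    rw [s2 u v (u * v) hu hv (eqvF_mul hu hv), s3 u u v hu hu hv, s3 v u v hv hu hv] at h1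
    exact aux_anti (t1 u hu) (t1 v hv) h1
  · intro α β w hα hβ hw hwαβ
    have hwa := eqvF_mul hw (eqvF_inv hα)
    have hba := eqvF_mul hβ (eqvF_inv hα)
    have h1 := t2 (w * α⁻¹) (β * α⁻¹) hwa hba (fun x => by
      have h2 := hwαβ x
      have h3 : (α x : Ω) ≠ 0 := (α x).ne_zero
      simp only [Pi.mul_apply, Pi.inv_apply, Units.val_mul, Units.val_inv_eq_inv_val]
      rw [h2]
      field_simp
      ring)
    rw [s2 w α⁻¹ _ hw (eqvF_inv hα) hba, s3 w β α⁻¹ hw hβ (eqvF_inv hα),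
      s3 α⁻¹ β α⁻¹ (eqvF_inv hα) hβ (eqvF_inv hα), symX_inv_right hζ hX hw hα,
      symX_inv_left hζ hX hα hβ, symX_inv_left hζ hX hα (eqvF_inv hα),
      symX_inv_right hζ hX hα hα] at h1
    exact aux_ident (t1 α hα) h1

/-- Module SXMUL. -/
theorem sxmul : SymXMulStatement.{u} := by
  intro F Ω _ _ _ _ _ ζ hζ X _ _ hX α β w hα hβ hw m hm hwαβ
  classical
  obtain ⟨M, hM⟩ : ∃ M : ℕ, ∀ x, m x ≤ M :=
    ⟨Finset.univ.sup m, fun x => Finset.le_sup (Finset.mem_univ x)⟩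
  let Z : Type u := {p : X × ULift.{u} (Fin M) // (p.2.down : ℕ) < m p.1}
  let _ : MulAction (HZ F ζ) Z :=
    { smul := fun h p => ⟨(h • p.1.1, p.1.2), by
        change (p.1.2.down : ℕ) < m (h • p.1.1)
        rw [hm]
        exact p.2⟩
      one_smul := fun p => Subtype.ext (Prod.ext (one_smul _ _) rfl)
      mul_smul := fun g h p => Subtype.ext (Prod.ext (mul_smul _ _ _) rfl) }
  have hO : OpenStab (HZ F ζ) Z := by
    intro p
    have h1 : {g : HZ F ζ | g • p = p} = {g : HZ F ζ | g • p.1.1 = p.1.1} := by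
      ext g
      simp only [Set.mem_ofPred_eq]
      constructor
      · intro h
        exact congrArg (fun p : Z => p.1.1) h
      · intro h
        exact Subtype.ext (Prod.ext h rfl)
    rw [h1]
    exact hX _
  let π : Z → X := fun p => p.1.1
  have hπ : ∀ (h : HZ F ζ) (p : Z), π (h • p) = h • π p := fun _ _ => rfl
  obtain ⟨p1, -⟩ := sxpush F Ω ζ hζ
  have hcomp : ∀ {u : X → Ωˣ}, EqvF (G := HZ F ζ) u → EqvF (G := HZ F ζ) (u ∘ π) :=
    fun hu g p => hu g p.1.1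
  have hprod : ∀ u : X → Ωˣ, (fun y => ∏ x ∈ Finset.univ.filter (fun x => π x = y), (u ∘ π) x) =
      fun x => u x ^ m x := by
    intro u
    funext y
    have h1 : ∀ x ∈ Finset.univ.filter (fun x => π x = y), (u ∘ π) x = u y := by
      intro x hx
      have h2 := (Finset.mem_filter.mp hx).2
      change u (π x) = u y
      rw [h2]
    rw [Finset.prod_congr rfl h1, Finset.prod_const]
    congr 1
    -- count
    have h3 : (Finset.univ.filter (fun x : Z => π x = y)).card = (Finset.range (m y)).card := by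
      refine Finset.card_bij (fun p _ => (p.1.2.down : ℕ)) ?_ ?_ ?_
      · intro p hp
        have h2 := (Finset.mem_filter.mp hp).2
        rw [Finset.mem_range, ← h2]
        exact p.2
      · intro p hp q hq hpq
        have h2 := (Finset.mem_filter.mp hp).2
        have h4 := (Finset.mem_filter.mp hq).2
        refine Subtype.ext (Prod.ext (h2.trans h4.symm) ?_)
        apply ULift.down_injective
        exact Fin.ext hpq
      · intro j hj
        have hj' := Finset.mem_range.mp hj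
        exact ⟨⟨(y, ⟨⟨j, lt_of_lt_of_le hj' (hM y)⟩⟩), hj'⟩,
          Finset.mem_filter.mpr ⟨Finset.mem_univ _, rfl⟩, rfl⟩
    rw [h3, Finset.card_range]
  obtain ⟨-, i2⟩ := sxident F Ω ζ hζ Z hO
  have h5 := i2 (α ∘ π) (β ∘ π) (w ∘ π) (hcomp hα) (hcomp hβ) (hcomp hw) (fun p => hwαβ _)
  rw [p1 Z X π hπ (w ∘ π) α, p1 Z X π hπ (α ∘ π) β, p1 Z X π hπ (w ∘ π) β, hprod, hprod] at h5
  exact h5

end BR7.H38
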