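import Pool.Agent.Lib.MP_defcf3_al.BR.StageT
import Pool.Agent.Lib.MP_defcf3_al.BR.H38.Triv

/-!
Module TRIVC of project BR7, stage 2.
-/

set_option autoImplicit false

namespace BR7.H38

open BR7

universe u

/-- Module TRIVC. -/
theorem trivc (hT : GcupTransStatement.{u}) (hK : KumStatement.{u}) (hDisc : DiscStatement.{u}) :
    TrivCStatement.{u} := by
  intro F Ω _ _ _ _ _ ζ hζ γ d hH hex f l hf hl
  obtain ⟨k1, k2, k3, k4, k5, k6⟩ := hK F Ω ζ hζ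
  have hAG := hDisc F Ω
  have hA := disc_HZ F hAG ζ
  have hHZ := isOpen_HZ F ζ
  set κ := kum F ζ l with hκ
  have hκa := k3 l hl
  have hκc := k4 l hl
  -- the index of a coset
  choose J hJ hJu using hex
  have hJc : IsLocallyConstant J := by
    rw [IsLocallyConstant.iff_eventually_eq]
    intro g0
    filter_upwards [(lc_smulA hAG ζ).eventually_eq g0] with g hg
    apply hJu g0
    rw [← hg]
    exact hJ g
  have hJmem : ∀ g, (γ ^ (J g : ℕ))⁻¹ * g ∈ HZ F ζ := by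
    intro g
    rw [MulAction.mem_stabilizer_iff, mul_smul, hJ g, inv_smul_smul]
  have hJmul : ∀ g, ∀ h ∈ HZ F ζ, J (g * h) = J g := by
    intro g h hh
    symm
    apply hJu (g * h)
    rw [mul_smul, MulAction.mem_stabilizer_iff.1 hh]
    exact hJ g
  let Rf : (Ω ≃ₐ[F] Ω) → ZMod 7 := fun g => ext0 (HZ F ζ) κ ((γ ^ (J g : ℕ))⁻¹ * g)
  have hRc : IsLocallyConstant Rf := by
    rw [IsLocallyConstant.iff_eventually_eq]
    intro g0
    have h1 := ((ext0_lc (HZ F ζ) hHZ κ hκc).comp_continuous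
      (f := fun g : Ω ≃ₐ[F] Ω => (γ ^ (J g0 : ℕ))⁻¹ * g)
      (continuous_const.mul continuous_id)).eventually_eq g0
    filter_upwards [h1, hJc.eventually_eq g0] with g h2 h3
    simp only [Function.comp_apply] at h2
    change ext0 (HZ F ζ) κ ((γ ^ (J g : ℕ))⁻¹ * g) = ext0 (HZ F ζ) κ ((γ ^ (J g0 : ℕ))⁻¹ * g0)
    rw [h3, h2]
  have hRmul : ∀ g (h : HZ F ζ), Rf (g * h) = Rf g + κ h := by
    intro g h
    change ext0 (HZ F ζ) κ ((γ ^ (J (g * h) : ℕ))⁻¹ * (g * h)) =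
      ext0 (HZ F ζ) κ ((γ ^ (J g : ℕ))⁻¹ * g) + κ h
    rw [hJmul g h h.2, ← mul_assoc, ext0_of_mem _ _ (hJmem g),
      ext0_of_mem _ _ (mul_mem (hJmem g) h.2), ← hκa]
    rfl
  -- the transfer
  let Ver : (Ω ≃ₐ[F] Ω) → ZMod 7 := fun g => ∑ i : Fin d, Rf (g * γ ^ (i : ℕ))
  have hVc : IsLocallyConstant Ver := by
    rw [IsLocallyConstant.iff_eventually_eq]
    intro g0
    have h1 : ∀ᶠ g in nhds g0, ∀ i : Fin d, Rf (g * γ ^ (i : ℕ)) = Rf (g0 * γ ^ (i : ℕ)) :=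
      Filter.eventually_all.2 fun i => (hRc.comp_continuous
        (f := fun g : Ω ≃ₐ[F] Ω => g * γ ^ (i : ℕ))
        (continuous_id.mul continuous_const)).eventually_eq g0
    filter_upwards [h1] with g hg
    exact Finset.sum_congr rfl fun i _ => hg i
  have hVa : ∀ g h, Ver (g * h) = Ver g + Ver h := by
    intro g h
    have h1 : ∀ i : Fin d, Rf (g * h * γ ^ (i : ℕ)) =
        Rf (g * γ ^ (J (h * γ ^ (i : ℕ)) : ℕ)) + Rf (h * γ ^ (i : ℕ)) := by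
      intro i
      have h2 := hJmem (h * γ ^ (i : ℕ))
      have h3 : g * h * γ ^ (i : ℕ) = g * γ ^ (J (h * γ ^ (i : ℕ)) : ℕ) *
          ((γ ^ (J (h * γ ^ (i : ℕ)) : ℕ))⁻¹ * (h * γ ^ (i : ℕ))) := by
        group
      have h4 := hRmul (g * γ ^ (J (h * γ ^ (i : ℕ)) : ℕ)) ⟨_, h2⟩
      rw [h3, h4]
      congr 1
      change κ ⟨_, h2⟩ = ext0 (HZ F ζ) κ ((γ ^ (J (h * γ ^ (i : ℕ)) : ℕ))⁻¹ * (h * γ ^ (i : ℕ)))
      rw [ext0_of_mem _ _ h2]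
    change ∑ i : Fin d, Rf (g * h * γ ^ (i : ℕ)) = ∑ i : Fin d, Rf (g * γ ^ (i : ℕ)) +
      ∑ i : Fin d, Rf (h * γ ^ (i : ℕ))
    simp only [h1]
    rw [Finset.sum_add_distrib]
    congr 1
    -- reindex
    have hinj : Function.Injective (fun i : Fin d => J (h * γ ^ (i : ℕ))) := by
      intro i j hij
      have e1 := hJ (h * γ ^ (i : ℕ))
      have e2 := hJ (h * γ ^ (j : ℕ))
      simp only at e1 e2 hij
      rw [hij, ← e2, mul_smul, mul_smul, smul_left_cancel_iff] at e1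
      have e3 := hJu (γ ^ (j : ℕ)) i e1.symm
      have e4 := hJu (γ ^ (j : ℕ)) j rfl
      exact e3.trans e4.symm
    have hbij := Finite.injective_iff_bijective.1 hinj
    exact Function.Bijective.sum_comp hbij (fun j : Fin d => Rf (g * γ ^ (j : ℕ)))
  refine ⟨Ver, hVa, hVc, ?_⟩
  -- the restriction to the stabilizer
  have hVr : ∀ h : HZ F ζ, Ver h = ∑ i : Fin d,
      κ ⟨(γ ^ (i : ℕ))⁻¹ * h * γ ^ (i : ℕ), hH i h h.2⟩ := by
    intro h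
    refine Finset.sum_congr rfl fun i _ => ?_
    have h2 : J ((h : Ω ≃ₐ[F] Ω) * γ ^ (i : ℕ)) = i := by
      symm
      apply hJu
      have h3 := MulAction.mem_stabilizer_iff.1 (hH i h h.2)
      rw [mul_smul, mul_smul, inv_smul_eq_iff] at h3
      beta_reduce
      rw [mul_smul]
      exact h3
    change ext0 (HZ F ζ) κ ((γ ^ (J ((h : Ω ≃ₐ[F] Ω) * γ ^ (i : ℕ)) : ℕ))⁻¹ *
      ((h : Ω ≃ₐ[F] Ω) * γ ^ (i : ℕ))) = _
    rw [h2, ← mul_assoc, ext0_of_mem _ _ (hH i h h.2)]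
  -- the trivial action on the index set
  let act : MulAction (HZ F ζ) (ULift.{u} (Fin d)) :=
    { smul := fun _ i => i
      one_smul := fun _ => rfl
      mul_smul := fun _ _ _ => rfl }
  let χ : HZ F ζ → ULift.{u} (Fin d) → ZMod 7 := fun h i =>
    κ ⟨(γ ^ (i.down : ℕ))⁻¹ * h * γ ^ (i.down : ℕ), hH i.down h h.2⟩
  have hχc : ∀ i, IsLocallyConstant (fun h => χ h i) := by
    intro i
    have hc : Continuous (fun h : HZ F ζ =>
        (⟨(γ ^ (i.down : ℕ))⁻¹ * h * γ ^ (i.down : ℕ), hH i.down h h.2⟩ : HZ F ζ)) := by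
      apply Continuous.subtype_mk
      exact (continuous_const.mul continuous_subtype_val).mul continuous_const
    exact hκc.comp_continuous hc
  have hχa : GChar 7 χ := by
    intro g h i
    change κ ⟨(γ ^ (i.down : ℕ))⁻¹ * ((g : Ω ≃ₐ[F] Ω) * h) * γ ^ (i.down : ℕ), _⟩ =
      κ ⟨(γ ^ (i.down : ℕ))⁻¹ * g * γ ^ (i.down : ℕ), hH i.down g g.2⟩ +
      κ ⟨(γ ^ (i.down : ℕ))⁻¹ * h * γ ^ (i.down : ℕ), hH i.down h h.2⟩
    rw [← hκa]
    congr 1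
    apply Subtype.ext
    change (γ ^ (i.down : ℕ))⁻¹ * ((g : Ω ≃ₐ[F] Ω) * h) * γ ^ (i.down : ℕ) =
      ((γ ^ (i.down : ℕ))⁻¹ * g * γ ^ (i.down : ℕ)) * ((γ ^ (i.down : ℕ))⁻¹ * h * γ ^ (i.down : ℕ))
    group
  have hO : OpenStab (HZ F ζ) (ULift.{u} (Fin d)) := by
    intro i
    have e : {g : HZ F ζ | g • i = i} = Set.univ := by
      ext g
      simp only [Set.mem_univ, iff_true]
      rfl
    rw [e]
    exact isOpen_univ
  have h2 := hT (HZ F ζ) Ωˣ (ULift.{u} (Fin d)) hA hO 7 f χ (fun g => hf g) hχa hχc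
  -- the restriction of the cup product
  have hs : ∀ h : HZ F ζ, ∑ i, χ h i = Ver h := by
    intro h
    rw [hVr h]
    exact Equiv.sum_comp Equiv.ulift (fun i : Fin d =>
      κ ⟨(γ ^ (i : ℕ))⁻¹ * h * γ ^ (i : ℕ), hH i h h.2⟩)
  simp only [hs] at h2
  convert h2 using 2
  funext g h
  rw [Finset.prod_apply, Finset.prod_apply]
  change ∏ i : Fin d, (γ ^ (i : ℕ)) • (f ^ carry 7
      (κ ⟨(γ ^ (i : ℕ))⁻¹ * g * γ ^ (i : ℕ), hH i g g.2⟩)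
      (κ ⟨(γ ^ (i : ℕ))⁻¹ * h * γ ^ (i : ℕ), hH i h h.2⟩)) =
    ∏ i : ULift.{u} (Fin d), f ^ carry 7 (χ g i) (χ h i)
  have h5 : ∀ i : Fin d, (γ ^ (i : ℕ)) • (f ^ carry 7
      (κ ⟨(γ ^ (i : ℕ))⁻¹ * g * γ ^ (i : ℕ), hH i g g.2⟩)
      (κ ⟨(γ ^ (i : ℕ))⁻¹ * h * γ ^ (i : ℕ), hH i h h.2⟩)) =
      f ^ carry 7 (κ ⟨(γ ^ (i : ℕ))⁻¹ * g * γ ^ (i : ℕ), hH i g g.2⟩)
      (κ ⟨(γ ^ (i : ℕ))⁻¹ * h * γ ^ (i : ℕ), hH i h h.2⟩) := by
    intro i
    rw [smul_pow', hf]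
  simp only [h5]
  exact (Equiv.prod_comp Equiv.ulift (fun i : Fin d =>
    f ^ carry 7 (κ ⟨(γ ^ (i : ℕ))⁻¹ * g * γ ^ (i : ℕ), hH i g g.2⟩)
      (κ ⟨(γ ^ (i : ℕ))⁻¹ * h * γ ^ (i : ℕ), hH i h h.2⟩))).symm

end BR7.H38
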